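import Pool.Agent.Y128.CC.Key
import Pool.Agent.Y128.SJ.Det

/-!
# Complex reflections and elements which do not act as scalars
-/

set_option linter.unusedSectionVars false

namespace Pool.Agent.Y128.CC

open Module Pool.Agent.H204R3.SP Pool.Agent.H204R3.GP Pool.Agent.W529.Ta
  Pool.Agent.W522.U Pool.Agent.TH118.WC Pool.Agent.TH118.CR Pool.Agent.Y128.GT Pool.Agent.Y128.RT
  Pool.Agent.Y128.SJ

noncomputable section

variable {K : Type} [Field K] [CharZero K] {X : Type} [AddCommGroup X] [Module K X]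
  {Γ : Type} [Group Γ] {R : Representation K Γ X} {χ : Γ →* K} {I : Type} {E : I → Submodule K X}

/-- The operators killing all forms on which `Δ` acts through the powers of `χ`. -/
def LD (R : Representation K Γ X) (χ : Γ →* K) (Δ : Subgroup Γ) :
    Submodule K (Module.End K X) where
  carrier := {Y | ∀ (m : ℕ) (φ : MultilinearMap K (fun _ : Fin m × Fin 2 => X) K),
    (∀ s ∈ Δ, ∀ v, φ (fun k => R s (v k)) = χ s ^ m * φ v) → dF Y φ = 0}
  zero_mem' := by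
    intro m φ _
    ext v
    rw [dF_apply]
    exact Finset.sum_eq_zero fun k _ => φ.map_coord_zero k (by
      rw [Function.update_self, LinearMap.zero_apply])
  add_mem' := by
    intro Y Z hY hZ m φ hφ
    rw [dF_add, hY m φ hφ, hZ m φ hφ, add_zero]
  smul_mem' := by
    intro c Y hY m φ hφ
    rw [dF_smul, hY m φ hφ, smul_zero]

theorem LD_mono {Δ Δ' : Subgroup Γ} (h : Δ' ≤ Δ) : LD R χ Δ' ≤ LD R χ Δ :=
  fun _ hY m φ hφ => hY m φ fun s hs => hφ s (h hs)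

/-- One subgroup of finite index is enough. -/
theorem exists_LD [FiniteDimensional K X] : ∃ Δ : Subgroup Γ, Δ.Normal ∧ Δ.FiniteIndex ∧
    LD R χ Δ ≤ lieT R χ := by
  classical
  let S : Set ℕ := {n | ∃ Δ : Subgroup Γ, Δ.Normal ∧ Δ.FiniteIndex ∧ finrank K (LD R χ Δ) = n}
  have hS : S.Nonempty := ⟨_, ⊤, inferInstance, inferInstance, rfl⟩
  obtain ⟨Δ, hn, hfi, hr⟩ := Nat.sInf_mem hS
  refine ⟨Δ, hn, hfi, ?_⟩
  rintro Y hY m φ ⟨Δφ, hΔφ, hφ⟩ v
  let Δ' : Subgroup Γ := (Δφ ⊓ Δ).normalCore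
  have hfi' : Δ'.FiniteIndex := inferInstance
  have hle : Δ' ≤ Δφ ⊓ Δ := Subgroup.normalCore_le _
  have h1 : LD R χ Δ' ≤ LD R χ Δ := LD_mono (hle.trans inf_le_right)
  have h2 : finrank K (LD R χ Δ) ≤ finrank K (LD R χ Δ') := by
    rw [hr]
    exact Nat.sInf_le ⟨Δ', inferInstance, hfi', rfl⟩
  have h3 : LD R χ Δ' = LD R χ Δ := Submodule.eq_of_le_of_finrank_le h1 h2
  rw [← h3] at hY
  have h4 := hY m φ fun s hs => hφ s (hle hs).1
  have h5 := congrArg (fun F : MultilinearMap K (fun _ : Fin m × Fin 2 => X) K => F v) h4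
  rw [dF_apply] at h5
  exact h5

/-- A nonscalar element of the Lie algebra. -/
theorem exists_lieT [IsAlgClosed K] [FiniteDimensional K X] {U : Submodule K X} (hSI : SI R U)
    (hUst : ∀ s, ∀ u ∈ U, R s u ∈ U) {g : Γ} {ε : K} (h : ReflectsOn R g U ε) (hε : ε ≠ 1)
    (hF : ∃ F : Γ, ∀ N : ℕ, 0 < N → ∀ a : K, ∃ u ∈ U, R (F ^ N) u ≠ a • u) :
    ∃ Y ∈ lieT R χ, ¬∃ a : K, ∀ u ∈ U, Y u = a • u := by
  obtain ⟨c, d, φ, hd, hφ, h⟩ := h
  obtain ⟨Δ, hn, hfi, hΔ⟩ := exists_LD (R := R) (χ := χ)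
  obtain ⟨Y, -, hY2, hY3⟩ := exists_Y hSI hUst hd hφ h hε hn hfi hF
  refine ⟨Y, hΔ fun m ψ hψ => hY2 _ ψ fun t ht => ?_, ?_⟩
  · ext v
    rw [TT_apply]
    have h1 : g * t * g⁻¹ * t⁻¹ ∈ Δ := Δ.mul_mem (hn.conj_mem t ht g) (Δ.inv_mem ht)
    rw [hψ _ h1]
    have h2 : χ (g * t * g⁻¹ * t⁻¹) = 1 := by
      have e1 : χ g * χ g⁻¹ = 1 := by rw [← map_mul, mul_inv_cancel, map_one]
      have e2 : χ t * χ t⁻¹ = 1 := by rw [← map_mul, mul_inv_cancel, map_one]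
      rw [map_mul, map_mul, map_mul]
      linear_combination (χ t * χ t⁻¹) * e1 + e2
    rw [h2, one_pow, one_mul]
  · rintro ⟨a, ha⟩
    apply hY3
    rw [ha d hd, map_smul, hφ, smul_eq_mul, mul_one, sub_self]

/-- The main theorem over an algebraically closed field. -/
theorem refl_pt' [IsAlgClosed K] [FiniteDimensional K X] (ω : X →ₗ[K] X →ₗ[K] K)
    (hnd : ∀ u, (∀ v, ω u v = 0) → u = 0)
    (hωR : ∀ g u v, ω (R g u) (R g v) = χ g * ω u v) (hss : HasProj R)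
    (hE : StronglyIrreducibleSum R E) (hEst : ∀ i s, ∀ u ∈ E i, R s u ∈ E i)
    (hrefl : HasReflections R E)
    (hF : ∀ i, ∃ F : Γ, ∀ N : ℕ, 0 < N → ∀ a : K, ∃ u ∈ E i, R (F ^ N) u ≠ a • u)
    (hdet : DetFree R χ E) {m : ℕ}
    (φ : MultilinearMap K (fun _ : Fin m × Fin 2 => X) K) (hφ : IsTate R χ m φ) :
    φ ∈ Submodule.span K (PT R χ m) := by
  refine pt_of_det hss hE hdet φ ?_
  have hst : ∀ j, ∀ Y ∈ lieT R χ, ∀ u ∈ E j, Y u ∈ E j := fun j Y hY =>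
    lieT_stable ω hnd hωR hss (hE.1 j).2.1 hY
  have h2 : ∀ j, 2 ≤ finrank K (E j) := fun j => le_trans (by norm_num) (hE.2.1 j)
  have hN : ∀ i, ∃ N ∈ lieT R χ, N * N = 0 ∧ finrank K ((E i).map N) = 1 := by
    intro i
    obtain ⟨γ, ⟨k, hk, hγ⟩, ε, hr, hε1, hε2, -⟩ := hrefl i
    exact refl_N E hE.2.2 hst h2 hk hγ ε hr i hε1 hε2 (hE.1 i)
      (exists_lieT (hE.1 i) (hEst i) (hr i) hε1 (hF i))
  have hsep : ∀ i j (ψ : Γ → K), Tw R ψ (E i) (E j) → i = j := by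
    intro i j ψ h
    by_contra hij
    obtain ⟨γ, -, ε, hr, hε1, -, hε⟩ := hrefl i
    exact sep (hE.1 i) (hE.1 j) (hE.2.1 i) (hr i) (hr j) hε1 (hε j (Ne.symm hij)) ψ h
  have hdim : ∀ U, SI R U → 3 ≤ finrank K U := by
    intro U hU
    obtain ⟨i, Δ, hΔ, T, hTU, h0, hT⟩ := exists_iso hss hE hU
    obtain ⟨e, -⟩ := tw_equiv hU (hE.1 i) hΔ hTU h0 hT
    rw [e.finrank_eq]
    exact hE.2.1 i
  refine nil_det ω hnd hωR ?_ hss ?_ ?_ φ hφ
  · intro U hU _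
    obtain ⟨i, hi⟩ := exists_iso hss hE hU
    obtain ⟨N, hN1, hN2, hN3⟩ := hN i
    refine ⟨N, hN1, hN2, ?_⟩
    rw [← rank_transfer ω hnd hωR hss hU (hE.1 i) hi hN1]
    exact hN3
  · intro U hU h1
    have h3 := hdim U hU
    omega
  · intro U U' hU hU' _ _ ψ hψ
    obtain ⟨i, hi⟩ := exists_iso hss hE hU
    obtain ⟨j, hj⟩ := exists_iso hss hE hU'
    have h3 := ((hi.symm1 hU (hE.1 i)).trans hU hψ).trans hU' hj
    have hij := hsep i j _ h3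
    subst hij
    exact hi.trans1 (hE.1 i) (hj.symm1 hU' (hE.1 i))

end

end Pool.Agent.Y128.CC
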