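import Pool.Agent.Y128.CC.Val
import Pool.Agent.Y128.CC.Refl
import Pool.Agent.Y128.SJ.Irr

/-!
# Bilinear Tate forms
-/

set_option linter.unusedSectionVars false

namespace Pool.Agent.Y128.CC

open Module TensorProduct Polynomial Pool.Agent.H204R3.SP Pool.Agent.H204R3.GP
  Pool.Agent.W522.U Pool.Agent.TH118.CR Pool.Agent.Y128.SJ

noncomputable section

section abs

variable {Ω : Type} [Field Ω] [CharZero Ω] {X : Type} [AddCommGroup X] [Module Ω X]
  [FiniteDimensional Ω X] {p : ℕ} [hp : Fact p.Prime] {S : Module.End Ω X}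
  (hS : ∑ i ∈ Finset.range p, S ^ i = 0) {z₀ : Ω} (hz₀ : IsPrimitiveRoot z₀ p)

theorem pow_eig {z : Ω} {u : X} (hu : u ∈ Module.End.eigenspace S z) (l : ℕ) :
    (S ^ l) u = z ^ l • u := by
  induction l with
  | zero => rw [pow_zero, pow_zero, one_smul]; rfl
  | succ l ih =>
    rw [pow_succ', Module.End.mul_apply, ih, map_smul, Module.End.mem_eigenspace_iff.1 hu,
      smul_smul, ← pow_succ]

theorem aeval_eig {z : Ω} {u : X} (hu : u ∈ Module.End.eigenspace S z) (P : Polynomial Ω) :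
    aeval S P u = P.eval z • u := by
  rw [aeval_eq_sum_range, LinearMap.sum_apply, eval_eq_sum_range, Finset.sum_smul]
  refine Finset.sum_congr rfl fun l _ => ?_
  rw [LinearMap.smul_apply, pow_eig hu, smul_smul]

include hz₀ in
theorem ev_injective : Function.Injective (fun j : (ZMod p)ˣ => ev z₀ j) :=
  fun _ _ h => Units.ext (pow_inj hz₀ h)

include hz₀ in
theorem pj_ne {i j : (ZMod p)ˣ} (hij : i ≠ j) {u : X}
    (hu : u ∈ Module.End.eigenspace S (ev z₀ i)) : pj S p (ev z₀ j) u = 0 := by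
  classical
  rw [pj, LinearMap.sum_apply]
  have h1 : ∀ l : ℕ, (((ev z₀ j)⁻¹) ^ l • S ^ l) u = ((ev z₀ j)⁻¹ * ev z₀ i) ^ l • u := by
    intro l
    rw [LinearMap.smul_apply, pow_eig hu, smul_smul, mul_pow]
  rw [Finset.sum_congr rfl (fun l _ => h1 l), ← Finset.sum_smul, geom_root (by
    rw [mul_pow, inv_pow, ev_pow hz₀, ev_pow hz₀, inv_one, one_mul]), if_neg, zero_smul]
  intro h
  apply hij
  apply ev_injective hz₀
  have h0 : ev z₀ j ≠ 0 := by
    intro h2
    have h3 := ev_pow hz₀ j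
    rw [h2, zero_pow hp.out.ne_zero] at h3
    exact zero_ne_one h3
  exact ((inv_mul_eq_one₀ h0).1 h).symm

include hS hz₀ in
theorem sum_pj (x : X) : ∑ j : (ZMod p)ˣ, pj S p (ev z₀ j) x = (p : Ω) • x := by
  classical
  have h1 : (⨆ i : (ZMod p)ˣ, Module.End.eigenspace S (ev z₀ i)) ≤
      LinearMap.ker ((∑ j : (ZMod p)ˣ, pj S p (ev z₀ j)) - (p : Ω) • LinearMap.id) := by
    rw [iSup_le_iff]
    intro i u hu
    rw [LinearMap.mem_ker, LinearMap.sub_apply, LinearMap.sum_apply, LinearMap.smul_apply,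
      LinearMap.id_apply, Finset.sum_eq_single i, sub_eq_zero]
    · refine pj_eig ?_ hu
      intro h2
      have h3 := ev_pow hz₀ i
      rw [h2, zero_pow hp.out.ne_zero] at h3
      exact zero_ne_one h3
    · intro j _ hj
      exact pj_ne hz₀ hj.symm hu
    · intro h
      exact absurd (Finset.mem_univ _) h
  rw [iSup_eig hS hz₀] at h1
  have h2 := h1 (show x ∈ ⊤ from trivial)
  rw [LinearMap.mem_ker, LinearMap.sub_apply, LinearMap.sum_apply, LinearMap.smul_apply,
    LinearMap.id_apply] at h2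
  exact sub_eq_zero.1 h2

include hS hz₀ in
/-- An operator which is a scalar on each eigenspace is a polynomial in `S`. -/
theorem eq_poly {Q : Module.End Ω X} {c : (ZMod p)ˣ → Ω}
    (hQ : ∀ j, ∀ u ∈ Module.End.eigenspace S (ev z₀ j), Q u = c j • u) :
    ∃ a : Fin p → Ω, Q = ∑ i, a i • S ^ (i : ℕ) := by
  classical
  let P : Polynomial Ω := Lagrange.interpolate Finset.univ (fun j : (ZMod p)ˣ => ev z₀ j) c
  have hP : ∀ j, P.eval (ev z₀ j) = c j := fun j =>
    Lagrange.eval_interpolate_at_node (v := fun j : (ZMod p)ˣ => ev z₀ j) c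
      (ev_injective hz₀).injOn (Finset.mem_univ j)
  have hdeg : P.natDegree < p := by
    have h1 := Lagrange.degree_interpolate_lt (s := Finset.univ)
      (v := fun j : (ZMod p)ˣ => ev z₀ j) c (ev_injective hz₀).injOn
    have h2 : (Finset.univ : Finset (ZMod p)ˣ).card ≤ p := by
      rw [Finset.card_univ, ZMod.card_units_eq_totient]
      exact Nat.totient_le p
    by_cases h0 : P = 0
    · rw [h0, natDegree_zero]
      exact hp.out.pos
    · have h3 := (natDegree_lt_iff_degree_lt h0).2 h1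
      omega
  have h1 : Q = aeval S P := by
    have h2 : (⨆ i : (ZMod p)ˣ, Module.End.eigenspace S (ev z₀ i)) ≤
        LinearMap.ker (Q - aeval S P) := by
      rw [iSup_le_iff]
      intro i u hu
      rw [LinearMap.mem_ker, LinearMap.sub_apply, hQ i u hu, aeval_eig hu, hP, sub_self]
    rw [iSup_eig hS hz₀] at h2
    refine LinearMap.ext fun x => ?_
    have h3 := h2 (show x ∈ ⊤ from trivial)
    rw [LinearMap.mem_ker, LinearMap.sub_apply] at h3
    exact sub_eq_zero.1 h3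
  refine ⟨fun i => P.coeff i, ?_⟩
  rw [h1, aeval_eq_sum_range' hdeg, Fin.sum_univ_eq_sum_range (fun i => P.coeff i • S ^ i) p]

end abs

section

variable {Ω : Type} [Field Ω] [CharZero Ω] [IsAlgClosed Ω] {X : Type} [AddCommGroup X]
  [Module Ω X] [FiniteDimensional Ω X] {p : ℕ} [hp : Fact p.Prime] {S : Module.End Ω X}
  (hS : ∑ i ∈ Finset.range p, S ^ i = 0) {z₀ : Ω} (hz₀ : IsPrimitiveRoot z₀ p)
  {Γ : Type} [Group Γ] {R : Representation Ω Γ X} {χ : Γ →* Ω}
  (hRS : ∀ s, R s * S = S * R s)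

include hS hz₀ hRS in
/-- The bilinear Tate forms. -/
theorem bil_form (ω : X →ₗ[Ω] X →ₗ[Ω] Ω) (hnd : ∀ u, (∀ v, ω u v = 0) → u = 0)
    (hωR : ∀ g u v, ω (R g u) (R g v) = χ g * ω u v)
    (hSI : ∀ j : (ZMod p)ˣ, SI R (Module.End.eigenspace S (ev z₀ j)))
    (hsep : ∀ i j : (ZMod p)ˣ, Tw R (fun _ => 1) (Module.End.eigenspace S (ev z₀ i))
      (Module.End.eigenspace S (ev z₀ j)) → i = j)
    {B : X →ₗ[Ω] X →ₗ[Ω] Ω} (hB : IsTate2 R χ B) :
    ∃ a : Fin p → Ω, ∀ u v, B u v = ∑ i, a i * ω ((S ^ (i : ℕ)) u) v := by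
  classical
  obtain ⟨Δ, hΔ, hB⟩ := hB
  have hinj : Function.Injective ω := by
    rw [injective_iff_map_eq_zero]
    intro u hu
    exact hnd u fun v => by rw [hu, LinearMap.zero_apply]
  let D : X ≃ₗ[Ω] (X →ₗ[Ω] Ω) := LinearEquiv.ofInjectiveOfFinrankEq ω hinj
    (Subspace.dual_finrank_eq (K := Ω) (V := X)).symm
  have hD : ∀ u, D u = ω u := fun u => rfl
  let Q : Module.End Ω X := D.symm.toLinearMap ∘ₗ B
  have hQ : ∀ u v, ω (Q u) v = B u v := by
    intro u v
    rw [← hD]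
    change D (D.symm (B u)) v = B u v
    rw [D.apply_symm_apply]
  have hQR : ∀ s ∈ Δ, ∀ u, Q (R s u) = R s (Q u) := by
    intro s hs u
    rw [← sub_eq_zero]
    refine hnd _ fun v => ?_
    rw [map_sub, LinearMap.sub_apply, hQ, sub_eq_zero]
    have h1 := hB s hs u (R s⁻¹ v)
    have h2 := hωR s (Q u) (R s⁻¹ v)
    rw [Rinv'] at h1 h2
    rw [h1, h2, hQ]
  have hp0 : (p : Ω) ≠ 0 := Nat.cast_ne_zero.2 hp.out.ne_zero
  have hpR : ∀ (j : (ZMod p)ˣ) (s : Γ) (x : X), pj S p (ev z₀ j) (R s x) =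
      R s (pj S p (ev z₀ j) x) := fun j s x => pj_comm (hRS s) x
  have hoff : ∀ i j : (ZMod p)ˣ, i ≠ j → ∀ u ∈ Module.End.eigenspace S (ev z₀ j),
      pj S p (ev z₀ i) (Q u) = 0 := by
    intro i j hij
    by_contra hcon
    push Not at hcon
    apply hij
    symm
    apply hsep
    refine ⟨Δ, hΔ, (pj S p (ev z₀ i)).comp Q, fun u _ => pj_mem hS (ev_pow hz₀ i) _, hcon, ?_⟩
    intro s hs u _
    rw [one_smul]
    change pj S p (ev z₀ i) (Q (R s u)) = R s (pj S p (ev z₀ i) (Q u))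
    rw [hQR s hs, hpR]
  have hmem : ∀ j : (ZMod p)ˣ, ∀ u ∈ Module.End.eigenspace S (ev z₀ j),
      Q u ∈ Module.End.eigenspace S (ev z₀ j) := by
    intro j u hu
    have h1 := sum_pj hS hz₀ (Q u)
    rw [Finset.sum_eq_single j (fun i _ hij => hoff i j hij u hu)
      (fun h => absurd (Finset.mem_univ _) h)] at h1
    have h2 : Q u = (p : Ω)⁻¹ • pj S p (ev z₀ j) (Q u) := by
      rw [h1, smul_smul, inv_mul_cancel₀ hp0, one_smul]
    rw [h2]
    exact Submodule.smul_mem _ _ (pj_mem hS (ev_pow hz₀ j) _)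
  have hsc : ∀ j : (ZMod p)ˣ, ∃ c : Ω, ∀ u ∈ Module.End.eigenspace S (ev z₀ j), Q u = c • u := by
    intro j
    by_cases h0 : ∃ u ∈ Module.End.eigenspace S (ev z₀ j), Q u ≠ 0
    · obtain ⟨a, -, ha⟩ := self_twist (hSI j) hΔ (hmem j) h0 (κ := fun _ => 1) (by
        intro g hg u _
        rw [one_smul, hQR g hg])
      exact ⟨a, ha⟩
    · push Not at h0
      exact ⟨0, fun u hu => by rw [h0 u hu, zero_smul]⟩
  choose c hc using hsc
  obtain ⟨a, ha⟩ := eq_poly hS hz₀ hc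
  refine ⟨a, fun u v => ?_⟩
  rw [← hQ, ha, LinearMap.sum_apply, map_sum, LinearMap.sum_apply]
  refine Finset.sum_congr rfl fun i _ => ?_
  rw [LinearMap.smul_apply, map_smul, LinearMap.smul_apply, smul_eq_mul]

end

end

end Pool.Agent.Y128.CC
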