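import Pool.Agent.Y128.SJ.Defs

/-!
# Cyclic coverings of projective spaces: definitions
-/

namespace Pool.Agent.Y128.CC

open Module TensorProduct Polynomial Pool.Agent.Y128.SJ

/-- The dimension `((M - 1) ^ (N + 1) + (-1) ^ N) / M` of the eigenspaces of the automorphism on the
cohomology in degree `N` of a cyclic covering of the projective space of dimension `N`, branched along
a smooth hypersurface of degree `M ≥ 3` (the natural number below is the integral part of
`((M - 1) ^ (N + 1) + 1) / M`, which is the same). -/
def coverRank (N M : ℕ) : ℕ := ((M - 1) ^ (N + 1) + 1) / M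

/-- The sum `∑ i * h ^ (i, N - i)` over the Hodge numbers of the eigenspace with the number `j` of the
automorphism of order `p` on the cohomology in degree `N` of the same covering, `p ∣ M`. It is an
affine function of the representative of `j` between `0` and `p`. -/
def coverHodge (p N M : ℕ) (j : ZMod p) : ℚ :=
  (((N : ℚ) - 1) * coverRank N M + (-1) ^ N * (N + 1)) / 2 +
    (coverRank N M - (-1) ^ N * (N + 1)) / p * j.val

/-- There is a (Frobenius) element `γ`, of a place over a prime `q` congruent to one modulo `p` with
`q ^ a` elements in the residue field, whose determinant on the eigenspace of `σ` for each `z` is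
`D(z)`, where `D` is a polynomial with rational coefficients, and the valuations of the `D(w ^ s)`,
`w` a root of unity of order `p` in `ℚ_q`, are `a` times the numbers `h s` (the end points of the
Newton and of the Hodge polygons of the eigenspaces are the same). -/
def HasHodgeSums {k V Γ : Type} [Field k] [CharZero k] [AddCommGroup V] [Module k V] [Group Γ]
    (p : ℕ) (h : ZMod p → ℚ) (ρ : Representation k Γ V) (χ : Γ →* k) (σ : Module.End k V) : Prop :=
  ∃ (q a : ℕ) (_ : Fact q.Prime) (γ : Γ) (D : ℚ[X]) (w : ℚ_[q]), 0 < a ∧
    χ γ = (q : k) ^ a ∧ IsPrimitiveRoot w p ∧ HasDeterminant p (ρ γ) σ D ∧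
    ∀ s : (ZMod p)ˣ, ((aeval (w ^ (s : ZMod p).val) D).valuation : ℚ) = a * h s

/-- Standard properties of the dual `V` of the part of the cohomology in degree `N`, on which the
automorphism has no invariants, of a covering of the projective space of dimension `N` with a group of
automorphisms of prime order `p`, branched along a smooth hypersurface of degree `M` divisible by `p`,
over a number field which contains the roots of unity of order `p`: with the action `ρ` of the Galois
group `Γ`, the cyclotomic character `χ`, the form `ω` given by the cup product and the automorphism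
`σ`. The form `ω` is nondegenerate, symmetric or alternating, multiplied by `χ ^ N` under `ρ` and
invariant under `σ`; the eigenspaces of `σ` have the dimension `coverRank N M` and the Hodge numbers
`coverHodge p N M`. -/
structure CyclicCoverModule {k V Γ : Type} [Field k] [CharZero k] [AddCommGroup V] [Module k V]
    [Group Γ] (p N M : ℕ) (ρ : Representation k Γ V) (χ : Γ →* k) (ω : V →ₗ[k] V →ₗ[k] k)
    (σ : Module.End k V) : Prop where
  nondeg : ∀ u, (∀ v, ω u v = 0) → u = 0
  symm : ∀ u v, ω v u = (-1) ^ N * ω u v
  similitude : ∀ s u v, ω (ρ s u) (ρ s v) = χ s ^ N * ω u v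
  isom : ∀ u v, ω (σ u) (σ v) = ω u v
  cyclic : Cyclic p (coverRank N M) ρ σ
  hodge : HasHodgeSums p (coverHodge p N M) ρ χ σ

/-- All subgroups of finite index act irreducibly on the eigenspaces of `σ` over the closure. -/
def StronglyIrreducibleEigenspaces {k V Γ : Type} [Field k] [AddCommGroup V] [Module k V] [Group Γ]
    (p : ℕ) (ρ : Representation k Γ V) (σ : Module.End k V) : Prop :=
  ∀ z, IsPrimitiveRoot z p → ∀ Δ : Subgroup Γ, Δ.FiniteIndex →
    ∀ W : Submodule (AlgebraicClosure k) (AlgebraicClosure k ⊗[k] V), W ≤ eig σ z →
      (∀ s ∈ Δ, ∀ w ∈ W, ext (ρ s) w ∈ W) → W = ⊥ ∨ W = eig σ z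

/-- On each eigenspace of `σ` some element of the group (for instance a Frobenius element) acts such
that no positive power of it is a scalar. -/
def NonscalarOnEigenspaces {k V Γ : Type} [Field k] [AddCommGroup V] [Module k V] [Group Γ]
    (p : ℕ) (ρ : Representation k Γ V) (σ : Module.End k V) : Prop :=
  ∀ z, IsPrimitiveRoot z p → ∃ F : Γ, ∀ m : ℕ, 0 < m → ∀ a : AlgebraicClosure k,
    ∃ u ∈ eig σ z, ext (ρ (F ^ m)) u ≠ a • u

/-- A Tate class in the `n`-th tensor power of the dual of `V`, that is in a direct summand of the
cohomology of degree `N n` of the `n`-th power of the variety: a subgroup of finite index acts on it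
through the power `c` of the cyclotomic character, where `2 c` is the degree. -/
def IsTateTensor {k V Γ : Type} [Field k] [AddCommGroup V] [Module k V] [Group Γ]
    (ρ : Representation k Γ V) (χ : Γ →* k) (N : ℕ) {n : ℕ}
    (φ : MultilinearMap k (fun _ : Fin n => V) k) : Prop :=
  ∃ (Δ : Subgroup Γ) (c : ℕ), Δ.FiniteIndex ∧ 2 * c = N * n ∧
    ∀ s ∈ Δ, ∀ v : Fin n → V, φ (fun l => ρ s (v l)) = χ s ^ c * φ v

/-- The products of the forms `ω(σ ^ i u, v)`, the classes of the graphs of the powers of the
automorphism, over a partition of the variables into pairs. -/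
def graphProducts {k V : Type} [Field k] [AddCommGroup V] [Module k V]
    (ω : V →ₗ[k] V →ₗ[k] k) (σ : Module.End k V) (n : ℕ) :
    Set (MultilinearMap k (fun _ : Fin n => V) k) :=
  {φ | ∃ (m : ℕ) (e : Fin m × Fin 2 ≃ Fin n) (i : Fin m → ℕ),
    ∀ v : Fin n → V, φ v = ∏ l, ω ((σ ^ i l) (v (e (l, 0)))) (v (e (l, 1)))}

end Pool.Agent.Y128.CC
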