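import Pool.Agent.Y128.CC.Main
import Pool.Agent.W529.Ta.Main

/-!
# Tate classes on the powers of cyclic coverings: products of graphs, descent, odd degree
-/

set_option linter.unusedSectionVars false

namespace Pool.Agent.Y128.CC

open Module TensorProduct Polynomial Pool.Agent.H204R3.SP Pool.Agent.H204R3.GP
  Pool.Agent.W522.U Pool.Agent.TH118.CR Pool.Agent.Y128.SJ Pool.Agent.W529.Ta

noncomputable section

/-- The products of graph forms over matchings. -/
def gp {k V : Type} [Field k] [AddCommGroup V] [Module k V]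
    (ω : V →ₗ[k] V →ₗ[k] k) (σ : Module.End k V) (m : ℕ) :
    Set (MultilinearMap k (fun _ : Fin m × Fin 2 => V) k) :=
  {φ | ∃ (τ : Equiv.Perm (Fin m × Fin 2)) (i : Fin m → ℕ),
    φ = mmG τ (fun l => ω.comp (σ ^ i l))}

section

variable {k : Type} [Field k] [CharZero k] {V : Type} [AddCommGroup V] [Module k V]
  [FiniteDimensional k V] (Ω : Type) [Field Ω] [CharZero Ω] [Algebra k Ω]
  {Γ : Type} [Group Γ] {ρ : Representation k Γ V} {χ : Γ →* k}
  {σ : Module.End k V} {ν : Type} [Fintype ν] [DecidableEq ν] (b : Basis ν k V)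

theorem bcb_comp (ω : V →ₗ[k] V →ₗ[k] k) (f : Module.End k V) (x y : Ω ⊗[k] V) :
    bcb Ω (ω.comp f) x y = bcb Ω ω (f.baseChange Ω x) y := by
  induction x with
  | zero => simp only [map_zero, LinearMap.zero_apply]
  | add u u' hu hu' => simp only [map_add, LinearMap.add_apply, hu, hu']
  | tmul a u =>
    induction y with
    | zero => simp only [map_zero]
    | add v v' hv hv' => simp only [map_add, hv, hv']
    | tmul b v => rw [LinearMap.baseChange_tmul, bcb_tmul, bcb_tmul, LinearMap.comp_apply]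

theorem bcm_mmG {m : ℕ} (τ : Equiv.Perm (Fin m × Fin 2)) (B : Fin m → (V →ₗ[k] V →ₗ[k] k)) :
    bcm (Ω := Ω) b (mmG τ B) = mmG τ (fun l => bcb Ω (B l)) := by
  refine Basis.ext_multilinear (fun _ => b.baseChange Ω) fun I => ?_
  rw [bcm_basis, mmG_apply, mmG_apply, map_prod]
  refine Finset.prod_congr rfl fun l _ => ?_
  rw [Basis.baseChange_apply, Basis.baseChange_apply, bcb_one]

/-- Products of bilinear Tate forms are combinations of products of graph forms. -/
theorem PT_gp (ω : V →ₗ[k] V →ₗ[k] k) {p m : ℕ} (τ : Equiv.Perm (Fin m × Fin 2))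
    (B : Fin m → ((Ω ⊗[k] V) →ₗ[Ω] (Ω ⊗[k] V) →ₗ[Ω] Ω))
    (hB : ∀ l, ∃ a : Fin p → Ω, ∀ u v,
      B l u v = ∑ i, a i * bcb Ω ω (((σ.baseChange Ω) ^ (i : ℕ)) u) v) :
    mmG τ B ∈ Submodule.span Ω
      ((fun φ => bcm (Ω := Ω) b φ) '' (Submodule.span k (gp ω σ m) : Set _)) := by
  classical
  choose a ha using hB
  have h1 : mmG τ B = ∑ i : Fin m → Fin p, (∏ l, a l (i l)) •
      bcm (Ω := Ω) b (mmG τ (fun l => ω.comp (σ ^ (i l : ℕ)))) := by
    refine MultilinearMap.ext fun v => ?_
    rw [mmG_apply, MultilinearMap.sum_apply]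
    simp only [ha]
    rw [Finset.prod_univ_sum, Fintype.piFinset_univ]
    refine Finset.sum_congr rfl fun i _ => ?_
    rw [MultilinearMap.smul_apply, bcm_mmG, mmG_apply, smul_eq_mul, Finset.prod_mul_distrib]
    congr 1
    refine Finset.prod_congr rfl fun l _ => ?_
    rw [bcb_comp]
    congr 2
    rw [← bc_pow]
  rw [h1]
  refine Submodule.sum_mem _ fun i _ => Submodule.smul_mem _ _ (Submodule.subset_span
    ⟨_, Submodule.subset_span ⟨τ, fun l => (i l : ℕ), rfl⟩, rfl⟩)

end

section

variable {p N M : ℕ} [hp : Fact p.Prime] {k V Γ : Type} [Field k] [CharZero k] [AddCommGroup V]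
  [Module k V] [FiniteDimensional k V] [Group Γ] {ρ : Representation k Γ V}
  {χ : Γ →* k} {ω : V →ₗ[k] V →ₗ[k] k} {σ : Module.End k V}

/-- The Tate forms in pairs of variables. -/
theorem even_k (h : CyclicCoverModule p N M ρ χ ω σ) (hp2 : p ≠ 2) (hr : 3 ≤ coverRank N M)
    (hslope : (coverRank N M : ℚ) - (-1) ^ N * (N + 1) ≠ 0)
    (hirr : StronglyIrreducibleEigenspaces p ρ σ) (hF : NonscalarOnEigenspaces p ρ σ)
    {g : Γ} (hg : IsReflection p σ (ρ g)) {z₀ : AlgebraicClosure k}
    (hz₀ : IsPrimitiveRoot z₀ p) {m : ℕ}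
    (φ : MultilinearMap k (fun _ : Fin m × Fin 2 => V) k) (hφ : IsTate ρ (χ ^ N) m φ) :
    φ ∈ Submodule.span k (gp ω σ m) := by
  classical
  let b := Module.finBasis k V
  have h1 := cov_even h hp2 hr hslope hirr hF hg hz₀ _
    (bcm_tate (Ω := AlgebraicClosure k) b ρ (χ ^ N) φ hφ)
  have hSI := fun j => cov_SI h.cyclic.comm hirr hz₀ j (cov_ne h hr hz₀ j)
  have hsep : ∀ i j : (ZMod p)ˣ, Tw (bcr ρ (AlgebraicClosure k)) (fun _ => 1)
      (Module.End.eigenspace (σ.baseChange (AlgebraicClosure k)) (ev z₀ i))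
      (Module.End.eigenspace (σ.baseChange (AlgebraicClosure k)) (ev z₀ j)) → i = j := by
    intro i j hT
    by_contra hij
    obtain ⟨γ, -, ε, hrr, hε1, -, hε⟩ := cov_refl hp2 h.cyclic.cyc h.cyclic.comm hg hz₀ i
    exact sep (hSI i) (hSI j) (by rw [cov_finrank h hz₀ i]; exact hr) (hrr i) (hrr j) hε1
      (hε j (Ne.symm hij)) _ hT
  have h2 : Submodule.span (AlgebraicClosure k)
      (PT (bcr ρ (AlgebraicClosure k)) (bcc (χ ^ N) (AlgebraicClosure k)) m) ≤
      Submodule.span (AlgebraicClosure k) ((fun φ => bcm (Ω := AlgebraicClosure k) b φ) ''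
        (Submodule.span k (gp ω σ m) : Set _)) := by
    rw [Submodule.span_le]
    rintro ψ ⟨τ, B, hB, rfl⟩
    exact PT_gp (AlgebraicClosure k) b ω (p := p) τ B fun l =>
      bil_form (bc_cyc (AlgebraicClosure k) h.cyclic.cyc) hz₀
        (fun s => by
          change (ρ s).baseChange _ * _ = _ * (ρ s).baseChange _
          rw [← LinearMap.baseChange_mul, ← LinearMap.baseChange_mul, h.cyclic.comm s])
        (bcb (AlgebraicClosure k) ω)
        (fun u hu => bcb_nondeg_left ω (cov_right h) h.nondeg u hu)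
        (bcb_inv ρ (χ ^ N) ω (cov_sim h)) hSI hsep (hB l)
  obtain ⟨π, hπ⟩ := (Algebra.linearMap k (AlgebraicClosure k)).exists_leftInverse_of_injective
    (LinearMap.ker_eq_bot.2 (FaithfulSMul.algebraMap_injective k (AlgebraicClosure k)))
  have hπ1 : π 1 = 1 := by
    have h1 := LinearMap.congr_fun hπ (1 : k)
    rwa [LinearMap.comp_apply, Algebra.linearMap_apply, map_one, LinearMap.id_apply] at h1
  have h3 := desc_mem b _ _ (h2 h1) π
  rwa [desc_bcm, hπ1, one_smul] at h3

end

section tt

variable {p : ℕ} [hp : Fact p.Prime] {k V : Type} [Field k] [CharZero k] [AddCommGroup V]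
  [Module k V] [FiniteDimensional k V] {ω : V →ₗ[k] V →ₗ[k] k} {σ : Module.End k V}
  {K : Type} [Field K] [CharZero K] [Algebra k K] [IsAlgClosed K]

/-- The operator that multiplies the eigenspaces by square roots of `-1`. -/
theorem exists_T (hp2 : p ≠ 2) (hcyc : ∑ i ∈ Finset.range p, σ ^ i = 0)
    (hisom : ∀ u v, ω (σ u) (σ v) = ω u v) {z₀ : K}
    (hz₀ : IsPrimitiveRoot z₀ p) :
    ∃ T : Module.End K (K ⊗[k] V), (∀ x, T (T x) = -x) ∧
      (∀ x, T (σ.baseChange K x) = σ.baseChange K (T x)) ∧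
      ∀ x y, bcb K ω (T x) (T y) = bcb K ω x y := by
  classical
  obtain ⟨ι, hι⟩ : ∃ ι : K, ι * ι = -1 := by
    obtain ⟨ι, hι⟩ := IsAlgClosed.exists_pow_nat_eq (-1 : K) two_pos
    exact ⟨ι, by rw [← sq, hι]⟩
  let c : (ZMod p)ˣ → K := fun j =>
    if (j : ZMod p).val < ((-j : (ZMod p)ˣ) : ZMod p).val then ι else -ι
  have hcc : ∀ j, c j * c (-j) = 1 := by
    intro j
    have hne : (j : ZMod p).val ≠ ((-j : (ZMod p)ˣ) : ZMod p).val := by
      intro h0
      have h1 : (j : ZMod p) = ((-j : (ZMod p)ˣ) : ZMod p) := ZMod.val_injective p h0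
      rw [Units.val_neg] at h1
      have h2 : (2 : ZMod p) * j = 0 := by linear_combination h1
      have h3 : (2 : ZMod p) = 0 := by
        rcases mul_eq_zero.1 h2 with h4 | h4
        · exact h4
        · exact absurd h4 j.ne_zero
      have h4 : ((2 : ℕ) : ZMod p) = 0 := by exact_mod_cast h3
      rw [ZMod.natCast_eq_zero_iff] at h4
      exact hp2 ((Nat.prime_dvd_prime_iff_eq hp.out Nat.prime_two).1 h4)
    change (if _ then ι else -ι) * (if _ then ι else -ι) = 1
    rw [neg_neg]
    rcases lt_or_gt_of_ne hne with h1 | h1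
    · rw [if_pos h1, if_neg (not_lt.2 h1.le)]
      linear_combination -hι
    · rw [if_neg (not_lt.2 h1.le), if_pos h1]
      linear_combination -hι
  have hc2 : ∀ j, c j * c j = -1 := by
    intro j
    change (if _ then ι else -ι) * (if _ then ι else -ι) = -1
    split_ifs
    · exact hι
    · rw [neg_mul_neg]
      exact hι
  let P : Polynomial K := Lagrange.interpolate Finset.univ (fun j : (ZMod p)ˣ => ev z₀ j) c
  have hP : ∀ j, P.eval (ev z₀ j) = c j := fun j =>
    Lagrange.eval_interpolate_at_node (v := fun j : (ZMod p)ˣ => ev z₀ j) c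
      (ev_injective hz₀).injOn (Finset.mem_univ j)
  let S : Module.End K (K ⊗[k] V) := σ.baseChange K
  have hT : ∀ j, ∀ u ∈ Module.End.eigenspace S (ev z₀ j), aeval S P u = c j • u := by
    intro j u hu
    rw [aeval_eig hu, hP]
  have htop : (⨆ j : (ZMod p)ˣ, Module.End.eigenspace S (ev z₀ j)) = ⊤ :=
    iSup_eig (bc_cyc K hcyc) hz₀
  refine ⟨aeval S P, fun x => ?_, fun x => ?_, fun x y => ?_⟩
  · have hle : (⨆ j : (ZMod p)ˣ, Module.End.eigenspace S (ev z₀ j)) ≤
        LinearMap.ker (aeval S P * aeval S P + 1) := by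
      rw [iSup_le_iff]
      intro j u hu
      rw [LinearMap.mem_ker, LinearMap.add_apply, Module.End.mul_apply, hT j u hu, map_smul,
        hT j u hu, smul_smul, hc2, Module.End.one_apply, neg_one_smul, neg_add_cancel]
    rw [htop] at hle
    have h1 := hle (show x ∈ ⊤ from trivial)
    rw [LinearMap.mem_ker, LinearMap.add_apply] at h1
    exact eq_neg_of_add_eq_zero_left h1
  · have h2 : aeval S P * aeval S (Polynomial.X : Polynomial K) =
        aeval S (Polynomial.X : Polynomial K) * aeval S P := by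
      rw [← map_mul, ← map_mul, mul_comm]
    rw [aeval_X] at h2
    exact LinearMap.congr_fun h2 x
  · have hle : ∀ i : (ZMod p)ˣ, ∀ u ∈ Module.End.eigenspace S (ev z₀ i), ∀ y,
        bcb K ω (aeval S P u) (aeval S P y) = bcb K ω u y := by
      intro i u hu y
      have h1 : (⨆ j : (ZMod p)ˣ, Module.End.eigenspace S (ev z₀ j)) ≤
          LinearMap.ker ((bcb K ω (aeval S P u)).comp (aeval S P) - bcb K ω u) := by
        rw [iSup_le_iff]
        intro j w hw
        rw [LinearMap.mem_ker, LinearMap.sub_apply, LinearMap.comp_apply, hT i u hu, hT j w hw,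
          map_smul, map_smul, LinearMap.smul_apply, smul_eq_mul, smul_eq_mul]
        by_cases hij : ev z₀ i * ev z₀ j = 1
        · have h2 := ev_dual hz₀ hij
          subst h2
          linear_combination (bcb K ω u w) * hcc i
        · rw [orth K ω hisom hij hu hw, mul_zero, mul_zero, sub_zero]
      rw [htop] at h1
      have h2 := h1 (show y ∈ ⊤ from trivial)
      rw [LinearMap.mem_ker, LinearMap.sub_apply] at h2
      exact sub_eq_zero.1 h2
    have h1 : (⨆ j : (ZMod p)ˣ, Module.End.eigenspace S (ev z₀ j)) ≤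
        LinearMap.ker (((bcb K ω).flip (aeval S P y)).comp (aeval S P) - (bcb K ω).flip y) := by
      rw [iSup_le_iff]
      intro j w hw
      rw [LinearMap.mem_ker, LinearMap.sub_apply, LinearMap.comp_apply, LinearMap.flip_apply,
        LinearMap.flip_apply, hle j w hw, sub_self]
    rw [htop] at h1
    have h2 := h1 (show x ∈ ⊤ from trivial)
    rw [LinearMap.mem_ker, LinearMap.sub_apply] at h2
    exact sub_eq_zero.1 h2

end tt

section sq

/-- The two copies of the variables. -/
def eqv (n : ℕ) : Fin n ⊕ Fin n ≃ Fin n × Fin 2 where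
  toFun x := Sum.elim (fun l => (l, 0)) (fun l => (l, 1)) x
  invFun x := if x.2 = 0 then Sum.inl x.1 else Sum.inr x.1
  left_inv x := by
    rcases x with l | l
    · rfl
    · rfl
  right_inv x := by
    obtain ⟨l, ε⟩ := x
    fin_cases ε <;> rfl

/-- The square of a form. -/
def sqm {R X : Type} [Field R] [AddCommGroup X] [Module R X] {n : ℕ}
    (φ : MultilinearMap R (fun _ : Fin n => X) R) :
    MultilinearMap R (fun _ : Fin n × Fin 2 => X) R :=
  ((LinearMap.mul' R R).compMultilinearMap (φ.domCoprod φ)).domDomCongr (eqv n)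

theorem sqm_apply {R X : Type} [Field R] [AddCommGroup X] [Module R X] {n : ℕ}
    (φ : MultilinearMap R (fun _ : Fin n => X) R) (v : Fin n × Fin 2 → X) :
    sqm φ v = φ (fun l => v (l, 0)) * φ (fun l => v (l, 1)) := rfl

theorem bcm_sqm {k K V : Type} [Field k] [Field K] [AddCommGroup V] [Module k V] [Algebra k K]
    {ν : Type} [Fintype ν] [DecidableEq ν] (b : Basis ν k V) {n : ℕ}
    (φ : MultilinearMap k (fun _ : Fin n => V) k) :
    bcm (Ω := K) b (sqm φ) = sqm (bcm b φ) := by
  refine Basis.ext_multilinear (fun _ => b.baseChange K) fun I => ?_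
  rw [bcm_basis, sqm_apply, sqm_apply, bcm_basis (J := fun l => I (l, 0)),
    bcm_basis (J := fun l => I (l, 1)), map_mul]

end sq

section

variable {p N M : ℕ} [hp : Fact p.Prime] {k V Γ : Type} [Field k] [CharZero k] [AddCommGroup V]
  [Module k V] [FiniteDimensional k V] [Group Γ] {ρ : Representation k Γ V}
  {χ : Γ →* k} {ω : V →ₗ[k] V →ₗ[k] k} {σ : Module.End k V}

/-- There are no Tate classes in odd tensor powers. -/
theorem odd_k (h : CyclicCoverModule p N M ρ χ ω σ) (hp2 : p ≠ 2) (hr : 3 ≤ coverRank N M)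
    (hslope : (coverRank N M : ℚ) - (-1) ^ N * (N + 1) ≠ 0)
    (hirr : StronglyIrreducibleEigenspaces p ρ σ) (hF : NonscalarOnEigenspaces p ρ σ)
    {g : Γ} (hg : IsReflection p σ (ρ g)) {z₀ : AlgebraicClosure k}
    (hz₀ : IsPrimitiveRoot z₀ p) {n : ℕ} (hn : Odd n)
    (φ : MultilinearMap k (fun _ : Fin n => V) k) (hφ : IsTateTensor ρ χ N φ) : φ = 0 := by
  classical
  let b := Module.finBasis k V
  obtain ⟨Δ, c, hΔ, hc, hφ⟩ := hφ
  have h1 : IsTate ρ (χ ^ N) n (sqm φ) := by
    refine ⟨Δ, hΔ, fun s hs v => ?_⟩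
    rw [sqm_apply, sqm_apply]
    have h2 := hφ s hs (fun l => v (l, 0))
    have h3 := hφ s hs (fun l => v (l, 1))
    rw [h2, h3, MonoidHom.pow_apply, ← pow_mul, ← hc, two_mul, pow_add]
    ring
  have h2 := even_k h hp2 hr hslope hirr hF hg hz₀ _ h1
  obtain ⟨T, hT1, hT2, hT3⟩ := exists_T (K := AlgebraicClosure k) hp2 h.cyclic.cyc h.isom hz₀
  have hTp : ∀ (i : ℕ) x, T (((σ ^ i).baseChange (AlgebraicClosure k)) x) =
      ((σ ^ i).baseChange (AlgebraicClosure k)) (T x) := by
    intro i
    induction i with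
    | zero => intro x; rw [← bc_pow, pow_zero]; rfl
    | succ i ih =>
      intro x
      rw [← bc_pow] at ih ⊢
      rw [pow_succ', Module.End.mul_apply, hT2, ih, Module.End.mul_apply]
  have h3 : ∀ ψ ∈ Submodule.span k (gp ω σ n),
      ∀ v, bcm (Ω := AlgebraicClosure k) b ψ (fun l => T (v l)) = bcm b ψ v := by
    intro ψ hψ
    induction hψ using Submodule.span_induction with
    | zero =>
      intro v
      have h4 : bcm (Ω := AlgebraicClosure k) b
          (0 : MultilinearMap k (fun _ : Fin n × Fin 2 => V) k) = 0 := map_zero (bcmL b)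
      rw [h4]
      rfl
    | add x y _ _ hx hy =>
      intro v
      have h4 : bcm (Ω := AlgebraicClosure k) b (x + y) = bcm b x + bcm b y := map_add (bcmL b) x y
      rw [h4, MultilinearMap.add_apply, MultilinearMap.add_apply, hx, hy]
    | smul a x _ hx =>
      intro v
      have h4 : bcm (Ω := AlgebraicClosure k) b (a • x) = a • bcm b x := map_smul (bcmL b) a x
      rw [h4, MultilinearMap.smul_apply, MultilinearMap.smul_apply, hx]
    | mem ψ hψ =>
      obtain ⟨τ, i, rfl⟩ := hψ
      intro v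
      rw [bcm_mmG, mmG_apply, mmG_apply]
      refine Finset.prod_congr rfl fun l _ => ?_
      rw [bcb_comp, bcb_comp, ← hTp, hT3]
  have h4 : ∀ u w : Fin n → AlgebraicClosure k ⊗[k] V,
      bcm b φ (fun l => T (u l)) * bcm b φ (fun l => T (w l)) = bcm b φ u * bcm b φ w := by
    intro u w
    have h5 := h3 _ h2 (fun x => if x.2 = 0 then u x.1 else w x.1)
    rw [bcm_sqm, sqm_apply, sqm_apply] at h5
    exact h5
  have h5 : ∀ u : Fin n → AlgebraicClosure k ⊗[k] V, bcm b φ u = 0 := by
    intro u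
    have h6 := h4 u (fun l => T (u l))
    have h7 : bcm b φ (fun l => T (T (u l))) = -bcm b φ u := by
      have h8 : (fun l => T (T (u l))) = fun l => (-1 : AlgebraicClosure k) • u l := by
        funext l
        rw [hT1]
        exact (neg_one_smul (AlgebraicClosure k) (u l)).symm
      rw [h8, MultilinearMap.map_smul_univ, Finset.prod_const, Finset.card_univ, Fintype.card_fin,
        hn.neg_one_pow]
      exact neg_one_smul (AlgebraicClosure k) _
    rw [h7] at h6
    have h8 : (2 : AlgebraicClosure k) * (bcm b φ (fun l => T (u l)) * bcm b φ u) = 0 := by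
      linear_combination -h6
    have h9 : bcm b φ (fun l => T (u l)) * bcm b φ u = 0 :=
      (mul_eq_zero.1 h8).resolve_left two_ne_zero
    have h10 := h4 u u
    rcases mul_eq_zero.1 h9 with h11 | h11
    · rw [h11, mul_zero] at h10
      exact (mul_self_eq_zero.1 h10.symm)
    · exact h11
  refine MultilinearMap.ext fun v => ?_
  have h6 := h5 (fun l => (1 : AlgebraicClosure k) ⊗ₜ[k] v l)
  rw [bcm_one] at h6
  rw [MultilinearMap.zero_apply]
  exact (FaithfulSMul.algebraMap_injective k (AlgebraicClosure k)) (by rw [h6, map_zero])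

/-- **Tate classes on the powers of cyclic coverings of projective spaces.** -/
theorem main (hp2 : p ≠ 2) (hN : 2 ≤ N) (hM : 3 ≤ M) (hNM : ¬(N = 2 ∧ M = 3))
    (h : CyclicCoverModule p N M ρ χ ω σ)
    (hirr : StronglyIrreducibleEigenspaces p ρ σ) (hF : NonscalarOnEigenspaces p ρ σ)
    {g : Γ} (hg : IsReflection p σ (ρ g)) {n : ℕ}
    (φ : MultilinearMap k (fun _ : Fin n => V) k) (hφ : IsTateTensor ρ χ N φ) :
    φ ∈ Submodule.span k (graphProducts ω σ n) := by
  classical
  have : NeZero ((p : ℕ) : AlgebraicClosure k) := ⟨Nat.cast_ne_zero.2 hp.out.ne_zero⟩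
  obtain ⟨z₀, hz₀⟩ := HasEnoughRootsOfUnity.exists_primitiveRoot (AlgebraicClosure k) p
  have hr := rank_ge hN hM hNM
  have hslope := slope_ne hN hM hNM
  rcases Nat.even_or_odd n with hn | hn
  · obtain ⟨m, hm⟩ := hn
    have hm2 : n = 2 * m := by omega
    obtain ⟨Δ, c, hΔ, hc, hφ⟩ := hφ
    have hc' : c = N * m := by
      rw [hm2] at hc
      have : 2 * c = 2 * (N * m) := by rw [hc]; ring
      omega
    let e : Fin m × Fin 2 ≃ Fin n := Fintype.equivOfCardEq (by
      rw [Fintype.card_prod, Fintype.card_fin, Fintype.card_fin, Fintype.card_fin]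
      omega)
    have h1 : IsTate ρ (χ ^ N) m (φ.domDomCongr e.symm) := by
      refine ⟨Δ, hΔ, fun s hs v => ?_⟩
      rw [MultilinearMap.domDomCongr_apply, MultilinearMap.domDomCongr_apply, hφ s hs, hc',
        MonoidHom.pow_apply, ← pow_mul]
    have h2 := even_k h hp2 (by omega) hslope hirr hF hg hz₀ _ h1
    have h3 : Submodule.span k (gp ω σ m) ≤
        (Submodule.span k (graphProducts ω σ n)).comap
          (MultilinearMap.domDomCongrLinearEquiv k k V k e).toLinearMap := by
      rw [Submodule.span_le]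
      rintro _ ⟨τ, i, rfl⟩
      refine Submodule.subset_span ⟨m, τ.trans e, i, fun v => ?_⟩
      change (mmG τ (fun l => ω.comp (σ ^ i l))).domDomCongr e v = _
      rw [MultilinearMap.domDomCongr_apply, mmG_apply]
      rfl
    have h4 := h3 h2
    have h5 : (MultilinearMap.domDomCongrLinearEquiv k k V k e).toLinearMap
        (φ.domDomCongr e.symm) = φ := by
      change (φ.domDomCongr e.symm).domDomCongr e = φ
      refine MultilinearMap.ext fun v => ?_
      rw [MultilinearMap.domDomCongr_apply, MultilinearMap.domDomCongr_apply]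
      congr 1
      funext l
      rw [e.apply_symm_apply]
    rw [Submodule.mem_comap, h5] at h4
    exact h4
  · rw [odd_k h hp2 (by omega) hslope hirr hF hg hz₀ hn φ hφ]
    exact Submodule.zero_mem _

end

end

end Pool.Agent.Y128.CC
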