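import Pool.Agent.Y128.CC.Ns
import Pool.Agent.TH118.CR.Refl

/-!
# Commutators of a reflection with elements of a subgroup of finite index
-/

set_option linter.unusedSectionVars false

namespace Pool.Agent.Y128.CC

open Module Polynomial Pool.Agent.H204R3.SP Pool.Agent.H204R3.GP Pool.Agent.W529.Ta
  Pool.Agent.W522.U Pool.Agent.TH118.CR Pool.Agent.Y128.GT Pool.Agent.Y128.RT

noncomputable section

variable {K : Type} [Field K] [CharZero K] {X : Type} [AddCommGroup X] [Module K X]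
  {Γ : Type} [Group Γ] {R : Representation K Γ X}

section

variable {κ : Type} [Fintype κ] [DecidableEq κ]

theorem TT_mul (A B : Module.End K X) (φ : MultilinearMap K (fun _ : κ => X) K) :
    TT (A * B) φ = TT B (TT A φ) := rfl

theorem dF_conj (h : Γ) (x : Module.End K X) (φ : MultilinearMap K (fun _ : κ => X) K) :
    dF (R h * x * R h⁻¹) φ = TT (R h⁻¹) (dF x (TT (R h) φ)) := by
  ext v
  rw [TT_apply, dF_apply, dF_apply]
  refine Finset.sum_congr rfl fun k _ => ?_
  rw [TT_apply]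
  congr 1
  funext l
  by_cases hl : l = k
  · subst hl
    rw [Function.update_self, Function.update_self]
    rfl
  · rw [Function.update_of_ne hl, Function.update_of_ne hl, Rinv']

theorem conj_aeval {x : Module.End K X} {t0 : Γ} {P : K[X]}
    (hP : dF (κ := κ) x = aeval (TT (κ := κ) (R t0)) P) (h : Γ)
    (φ : MultilinearMap K (fun _ : κ => X) K) :
    dF (R h * x * R h⁻¹) φ = ∑ j ∈ Finset.range (P.natDegree + 1),
      P.coeff j • TT (R (h * t0 ^ j * h⁻¹)) φ := by
  rw [dF_conj, hP, aeval_eq_sum_range, LinearMap.sum_apply, map_sum]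
  refine Finset.sum_congr rfl fun j _ => ?_
  rw [LinearMap.smul_apply, map_smul, ← TT_pow, ← map_pow, map_mul, map_mul, TT_mul, TT_mul]

/-- The basic computation. -/
theorem key_kill {x : Module.End K X} {t0 : Γ}
    (hx : dF (κ := κ) x ∈ Algebra.adjoin K {TT (κ := κ) (R t0)}) {Δ : Subgroup Γ}
    (hΔ : Δ.Normal) (ht0 : t0 ∈ Δ) (g h : Γ) (φ : MultilinearMap K (fun _ : κ => X) K)
    (hφ : ∀ t ∈ Δ, TT (R (g * t * g⁻¹ * t⁻¹)) φ = φ) :
    dF (R (g * h) * x * R (g * h)⁻¹ - R h * x * R h⁻¹) φ = 0 := by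
  rw [Algebra.adjoin_singleton_eq_range_aeval] at hx
  obtain ⟨P, hP⟩ := hx
  have hP' : dF (κ := κ) x = aeval (TT (κ := κ) (R t0)) P := hP.symm
  have hsub : dF (R (g * h) * x * R (g * h)⁻¹ - R h * x * R h⁻¹) φ =
      dF (R (g * h) * x * R (g * h)⁻¹) φ - dF (R h * x * R h⁻¹) φ := by
    have h1 := dF_add (R (g * h) * x * R (g * h)⁻¹ - R h * x * R h⁻¹) (R h * x * R h⁻¹) φ
    rw [sub_add_cancel] at h1
    rw [h1, add_sub_cancel_right]
  rw [hsub, conj_aeval hP', conj_aeval hP', ← Finset.sum_sub_distrib]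
  refine Finset.sum_eq_zero fun j _ => ?_
  have ht : h * t0 ^ j * h⁻¹ ∈ Δ := hΔ.conj_mem _ (Δ.pow_mem ht0 j) h
  have h2 : g * h * t0 ^ j * (g * h)⁻¹ =
      (g * (h * t0 ^ j * h⁻¹) * g⁻¹ * (h * t0 ^ j * h⁻¹)⁻¹) * (h * t0 ^ j * h⁻¹) := by
    group
  rw [h2, map_mul, TT_mul, hφ _ ht, sub_self]

/-- A functional as a form in one variable. -/
def one (f : X →ₗ[K] K) : MultilinearMap K (fun _ : Unit => X) K :=
  f.compMultilinearMap (MultilinearMap.ofSubsingleton K X X () LinearMap.id)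

theorem one_apply (f : X →ₗ[K] K) (v : Unit → X) : one f v = f (v ()) := rfl

theorem stable_of_adjoin {x : Module.End K X} {T : Module.End K X}
    (hx : dF (κ := Unit) x ∈ Algebra.adjoin K {TT (κ := Unit) T}) {W : Submodule K X}
    (hW : ∀ w ∈ W, T w ∈ W) : ∀ w ∈ W, x w ∈ W := by
  rw [Algebra.adjoin_singleton_eq_range_aeval] at hx
  obtain ⟨P, hP⟩ := hx
  have hP' : dF (κ := Unit) x = aeval (TT (κ := Unit) T) P := hP.symm
  have hTW : ∀ j : ℕ, ∀ w ∈ W, (T ^ j) w ∈ W := by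
    intro j
    induction j with
    | zero => exact fun w hw => hw
    | succ j ih =>
      intro w hw
      rw [pow_succ, Module.End.mul_apply]
      exact ih _ (hW w hw)
  intro w hw
  have h1 : x w = ∑ j ∈ Finset.range (P.natDegree + 1), P.coeff j • (T ^ j) w := by
    rw [← sub_eq_zero, ← Module.forall_dual_apply_eq_zero_iff K]
    intro f
    have h2 := congrArg (fun F : MultilinearMap K (fun _ : Unit => X) K => F (fun _ => w))
      (congrArg (fun A : Module.End K (MultilinearMap K (fun _ : Unit => X) K) => A (one f)) hP')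
    rw [dF_apply, aeval_eq_sum_range, LinearMap.sum_apply, MultilinearMap.sum_apply] at h2
    rw [map_sub, map_sum, sub_eq_zero]
    have h3 : ∑ k : Unit, one f (Function.update (fun _ : Unit => w) k (x w)) = f (x w) := by
      rw [Fintype.sum_unique, one_apply]
      rfl
    rw [← h3, h2]
    refine Finset.sum_congr rfl fun j _ => ?_
    rw [LinearMap.smul_apply, MultilinearMap.smul_apply, ← TT_pow, TT_apply, one_apply, map_smul]
  rw [h1]
  exact W.sum_mem fun j _ => W.smul_mem _ (hTW j w hw)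

end

/-- **The key lemma.** -/
theorem exists_Y [IsAlgClosed K] [FiniteDimensional K X] {U : Submodule K X} (hSI : SI R U)
    (hUst : ∀ s, ∀ u ∈ U, R s u ∈ U) {g : Γ} {c ε : K} {d : X} {φ : X →ₗ[K] K} (hd : d ∈ U)
    (hφ : φ d = 1) (h : ∀ u ∈ U, R g u = c • (u + ((ε - 1) * φ u) • d)) (hε : ε ≠ 1)
    {Δ : Subgroup Γ} (hΔ : Δ.Normal) (hfi : Δ.FiniteIndex)
    (hF : ∃ F : Γ, ∀ N : ℕ, 0 < N → ∀ a : K, ∃ u ∈ U, R (F ^ N) u ≠ a • u) :
    ∃ Y : Module.End K X, (∀ W : Submodule K X, (∀ s, ∀ w ∈ W, R s w ∈ W) → ∀ w ∈ W, Y w ∈ W) ∧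
      (∀ (κ : Type) [Fintype κ] [DecidableEq κ] (ψ : MultilinearMap K (fun _ : κ => X) K),
        (∀ t ∈ Δ, TT (R (g * t * g⁻¹ * t⁻¹)) ψ = ψ) → dF Y ψ = 0) ∧
      Y d - φ (Y d) • d ≠ 0 := by
  classical
  obtain ⟨F, hF⟩ := hF
  obtain ⟨N0, hN0, hFN⟩ := exists_pow_mem Δ hfi F
  have hTinj : ∀ v, R (F ^ N0) v = 0 → v = 0 := by
    intro v hv
    by_contra h0
    exact Rne (R := R) (F ^ N0) h0 hv
  obtain ⟨x, hx, hxκ⟩ := exists_ns (R (F ^ N0)) hTinj U (hUst _) (fun N hN a => by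
    obtain ⟨u, hu, h1⟩ := hF (N0 * N) (Nat.mul_pos (Nat.pos_of_ne_zero hN0) hN) a
    refine ⟨u, hu, ?_⟩
    rw [← map_pow, ← pow_mul]
    exact h1)
  have hxst : ∀ W : Submodule K X, (∀ s, ∀ w ∈ W, R s w ∈ W) → ∀ w ∈ W, x w ∈ W :=
    fun W hW => stable_of_adjoin (hxκ Unit) (hW _)
  have hcst : ∀ (h : Γ) (W : Submodule K X), (∀ s, ∀ w ∈ W, R s w ∈ W) → ∀ w ∈ W,
      (R h * x * R h⁻¹) w ∈ W := by
    intro h W hW w hw
    rw [Module.End.mul_apply, Module.End.mul_apply]
    exact hW _ _ (hxst W hW _ (hW _ _ hw))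
  have hd0 : d ≠ 0 := by
    rintro rfl
    rw [map_zero] at hφ
    exact zero_ne_one hφ
  -- a conjugate for which `d` is no eigenvector
  obtain ⟨k, hk⟩ : ∃ k : Γ, (R k * x * R k⁻¹) d - φ ((R k * x * R k⁻¹) d) • d ≠ 0 := by
    by_contra hcon
    push Not at hcon
    apply hx
    let L : Submodule K (Module.End K X) := Submodule.span K (Set.range fun k : Γ =>
      R k * x * R k⁻¹)
    have hL1 : ∀ s : Γ, ∀ Y ∈ L, R s * Y * R s⁻¹ ∈ L := by
      intro s Y hY
      induction hY using Submodule.span_induction with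
      | mem Y hY =>
        obtain ⟨k, rfl⟩ := hY
        refine Submodule.subset_span ⟨s * k, ?_⟩
        change R (s * k) * x * R (s * k)⁻¹ = R s * (R k * x * R k⁻¹) * R s⁻¹
        rw [mul_inv_rev, map_mul, map_mul]
        noncomm_ring
      | zero => rw [mul_zero, zero_mul]; exact L.zero_mem
      | add a b _ _ ha hb => rw [mul_add, add_mul]; exact L.add_mem ha hb
      | smul r a _ ha => rw [mul_smul_comm, smul_mul_assoc]; exact L.smul_mem r ha
    have hL2 : ∀ Y ∈ L, ∃ a : K, Y d = a • d := by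
      intro Y hY
      induction hY using Submodule.span_induction with
      | mem Y hY =>
        obtain ⟨k, rfl⟩ := hY
        exact ⟨_, sub_eq_zero.1 (hcon k)⟩
      | zero => exact ⟨0, by rw [LinearMap.zero_apply, zero_smul]⟩
      | add a b _ _ ha hb =>
        obtain ⟨r, hr⟩ := ha
        obtain ⟨s, hs⟩ := hb
        exact ⟨r + s, by rw [LinearMap.add_apply, hr, hs, add_smul]⟩
      | smul r a _ ha =>
        obtain ⟨s, hs⟩ := ha
        exact ⟨r * s, by rw [LinearMap.smul_apply, hs, smul_smul]⟩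
    refine scalar_of_vector hSI L hL1 hd hd0 hL2 x (Submodule.subset_span ⟨1, ?_⟩)
    change R 1 * x * R 1⁻¹ = x
    rw [inv_one, map_one, one_mul, mul_one]
  have hcg : R (g * k) * x * R (g * k)⁻¹ = R g * (R k * x * R k⁻¹) * R g⁻¹ := by
    rw [mul_inv_rev, map_mul, map_mul]
    noncomm_ring
  refine ⟨R (g * k) * x * R (g * k)⁻¹ - R k * x * R k⁻¹, ?_, ?_, ?_⟩
  · intro W hW w hw
    rw [LinearMap.sub_apply]
    exact W.sub_mem (hcst _ W hW w hw) (hcst _ W hW w hw)
  · intro κ _ _ ψ hψ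
    exact key_kill (hxκ κ) hΔ hFN g k ψ hψ
  · obtain ⟨hc, hε0⟩ := refl_ne hd hφ h
    set z := R k * x * R k⁻¹ with hz
    have hzd : z d ∈ U := hcst k U hUst d hd
    have h1 : R g⁻¹ d = (c⁻¹ * ε⁻¹) • d := by
      rw [refl_inv hd hφ h d hd, hφ, mul_one, mul_smul]
      congr 1
      module
    have h2 : (R (g * k) * x * R (g * k)⁻¹ - z) d = (ε⁻¹ - 1) • (z d - φ (z d) • d) := by
      rw [hcg, LinearMap.sub_apply, Module.End.mul_apply, Module.End.mul_apply, h1, map_smul,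
        map_smul, h _ hzd, smul_smul]
      have e1 : c⁻¹ * ε⁻¹ * c = ε⁻¹ := by field_simp
      rw [e1]
      match_scalars
      · ring
      · field_simp
        ring
    have h5 : φ (z d - φ (z d) • d) = 0 := by
      rw [map_sub, map_smul, hφ, smul_eq_mul, mul_one, sub_self]
    rw [h2, map_smul, h5, smul_zero, zero_smul, sub_zero]
    refine smul_ne_zero ?_ hk
    intro h3
    apply hε
    have h4 : ε⁻¹ = 1 := sub_eq_zero.1 h3
    exact inv_eq_one.1 h4

end

end Pool.Agent.Y128.CC
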