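import Pool.Agent.Y128.SJ.Val

/-!
# Sums of irreducible subspaces are semisimple
-/

set_option linter.unusedSectionVars false

namespace Pool.Agent.Y128.CC

open Module Pool.Agent.H204R3.SP Pool.Agent.H204R3.GP Pool.Agent.W522.U

variable {K : Type} [Field K] {X : Type} [AddCommGroup X] [Module K X] {Γ : Type} [Group Γ]
  {R : Representation K Γ X} {I : Type} [Finite I] {E : I → Submodule K X}

/-- A representation which is a sum of stable and strongly irreducible subspaces is semisimple for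
all subgroups of finite index. -/
theorem hasProj_of_sum (hst : ∀ i g, ∀ u ∈ E i, R g u ∈ E i)
    (hirr : ∀ i, ∀ W ≤ E i, Pot R W → W = ⊥ ∨ W = E i) (htop : ⨆ i, E i = ⊤) : HasProj R := by
  classical
  have := Fintype.ofFinite I
  intro Δ hΔ U hU
  have hstJ : ∀ J : Finset I, ∀ s, ∀ u ∈ ⨆ j ∈ J, E j, R s u ∈ ⨆ j ∈ J, E j := by
    intro J s
    have h1 : (⨆ j ∈ J, E j) ≤ (⨆ j ∈ J, E j).comap (R s) := by
      rw [iSup₂_le_iff]
      intro j hj u hu
      exact (le_iSup₂_of_le (f := fun j (_ : j ∈ J) => E j) j hj le_rfl) (hst j s u hu)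
    exact fun u hu => h1 hu
  let S : Finset (Finset I) := Finset.univ.filter fun J => U ⊓ ⨆ j ∈ J, E j = ⊥
  have hS : S.Nonempty := ⟨∅, Finset.mem_filter.2 ⟨Finset.mem_univ _, by simp⟩⟩
  obtain ⟨J, hJ, hmax⟩ := Finset.exists_max_image S Finset.card hS
  have hJ0 : U ⊓ ⨆ j ∈ J, E j = ⊥ := (Finset.mem_filter.1 hJ).2
  have hle : ∀ i, E i ≤ U ⊔ ⨆ j ∈ J, E j := by
    intro i
    by_contra hcon
    have hW : Pot R (E i ⊓ (U ⊔ ⨆ j ∈ J, E j)) := by
      refine ⟨Δ, hΔ, fun s hs u hu => ⟨hst i s u hu.1, ?_⟩⟩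
      obtain ⟨y, hy, z, hz, rfl⟩ := Submodule.mem_sup.1 hu.2
      rw [map_add]
      exact Submodule.add_mem_sup (hU s hs y hy) (hstJ J s z hz)
    rcases hirr i _ inf_le_left hW with h | h
    · have hnot : i ∉ J := by
        intro hi
        exact hcon (le_trans (le_iSup₂_of_le (f := fun j (_ : j ∈ J) => E j) i hi le_rfl) le_sup_right)
      have hnew : insert i J ∈ S := by
        refine Finset.mem_filter.2 ⟨Finset.mem_univ _, ?_⟩
        rw [eq_bot_iff]
        rintro x ⟨hx1, hx2⟩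
        rw [SetLike.mem_coe, Finset.iSup_insert] at hx2
        obtain ⟨e, he, y, hy, rfl⟩ := Submodule.mem_sup.1 hx2
        have h1 : e ∈ E i ⊓ (U ⊔ ⨆ j ∈ J, E j) := by
          refine ⟨he, ?_⟩
          have h2 : e = (e + y) + (-y) := by abel
          rw [h2]
          exact Submodule.add_mem_sup hx1 (Submodule.neg_mem _ hy)
        rw [h, Submodule.mem_bot] at h1
        subst h1
        rw [zero_add] at hx1 ⊢
        have h3 : y ∈ U ⊓ ⨆ j ∈ J, E j := ⟨hx1, hy⟩
        rwa [hJ0] at h3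
      have h1 := hmax _ hnew
      rw [Finset.card_insert_of_notMem hnot] at h1
      omega
    · exact hcon (inf_eq_left.1 h)
  have hc : IsCompl U (⨆ j ∈ J, E j) := by
    refine IsCompl.of_eq hJ0 ?_
    rw [eq_top_iff, ← htop, iSup_le_iff]
    exact hle
  refine ⟨Submodule.projection U (⨆ j ∈ J, E j) hc, fun v => ?_, fun u hu => ?_, fun s hs v => ?_⟩
  · exact Submodule.projection_apply_mem hc v
  · exact Submodule.projection_apply_left hc ⟨u, hu⟩
  · obtain ⟨y, hy, z, hz, rfl⟩ := Submodule.mem_sup.1 (show v ∈ U ⊔ ⨆ j ∈ J, E j by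
      rw [hc.sup_eq_top]; trivial)
    have e1 : ∀ y ∈ U, Submodule.projection U (⨆ j ∈ J, E j) hc y = y :=
      fun y hy => Submodule.projection_apply_left hc ⟨y, hy⟩
    have e2 : ∀ z ∈ ⨆ j ∈ J, E j, Submodule.projection U (⨆ j ∈ J, E j) hc z = 0 := fun z hz =>
      Submodule.projection_apply_right hc ⟨z, hz⟩
    rw [map_add, map_add, map_add, e1 y hy, e2 z hz, e1 _ (hU s hs y hy), e2 _ (hstJ J s z hz),
      add_zero, add_zero]

end Pool.Agent.Y128.CC
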