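import Pool.Agent.Y128.CC.Bil
import Pool.Agent.Y128.CC.Semi
import Pool.Agent.Y128.SJ.Main

/-!
# Tate classes on the powers of cyclic coverings: even degree, over the closure
-/

set_option linter.unusedSectionVars false

namespace Pool.Agent.Y128.CC

open Module TensorProduct Polynomial Pool.Agent.H204R3.SP Pool.Agent.H204R3.GP
  Pool.Agent.W522.U Pool.Agent.TH118.CR Pool.Agent.Y128.SJ

noncomputable section

section

variable {k : Type} [Field k] [CharZero k] {V : Type} [AddCommGroup V] [Module k V]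
  [FiniteDimensional k V] (Ω : Type) [Field Ω] [CharZero Ω] [Algebra k Ω]
  {Γ : Type} [Group Γ] {ρ : Representation k Γ V} {χ : Γ →* k}
  {σ : Module.End k V}

theorem bcb_isom (ω : V →ₗ[k] V →ₗ[k] k) (hisom : ∀ u v, ω (σ u) (σ v) = ω u v)
    (x y : Ω ⊗[k] V) : bcb Ω ω (σ.baseChange Ω x) (σ.baseChange Ω y) = bcb Ω ω x y := by
  induction x with
  | zero => simp only [map_zero, LinearMap.zero_apply]
  | add u u' hu hu' => simp only [map_add, LinearMap.add_apply, hu, hu']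
  | tmul a u =>
    induction y with
    | zero => simp only [map_zero]
    | add v v' hv hv' => simp only [map_add, hv, hv']
    | tmul b v => rw [LinearMap.baseChange_tmul, LinearMap.baseChange_tmul, bcb_tmul, bcb_tmul, hisom]

/-- Eigenspaces are orthogonal unless the eigenvalues are inverse. -/
theorem orth (ω : V →ₗ[k] V →ₗ[k] k) (hisom : ∀ u v, ω (σ u) (σ v) = ω u v) {z z' : Ω}
    (h : z * z' ≠ 1) {u w : Ω ⊗[k] V} (hu : u ∈ Module.End.eigenspace (σ.baseChange Ω) z)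
    (hw : w ∈ Module.End.eigenspace (σ.baseChange Ω) z') : bcb Ω ω u w = 0 := by
  have h1 := bcb_isom Ω ω hisom u w
  rw [Module.End.mem_eigenspace_iff.1 hu, Module.End.mem_eigenspace_iff.1 hw, map_smul,
    map_smul, LinearMap.smul_apply, smul_eq_mul, smul_eq_mul, ← mul_assoc, mul_comm z'] at h1
  have h2 : (z * z' - 1) * bcb Ω ω u w = 0 := by
    rw [sub_mul, one_mul, h1, sub_self]
  exact (mul_eq_zero.1 h2).resolve_left (sub_ne_zero.2 h)

/-- The eigenspaces of inverse eigenvalues are dual. -/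
theorem eig_Du' (ω : V →ₗ[k] V →ₗ[k] k) (hndr : ∀ u, (∀ v, ω v u = 0) → u = 0)
    (hndl : ∀ u, (∀ v, ω u v = 0) → u = 0)
    (hweil : ∀ s u v, ω (ρ s u) (ρ s v) = χ s * ω u v)
    (hisom : ∀ u v, ω (σ u) (σ v) = ω u v) {p : ℕ} [hp : Fact p.Prime]
    (hσ : ∑ i ∈ Finset.range p, σ ^ i = 0) {z₀ : Ω} (hz₀ : IsPrimitiveRoot z₀ p) (j : (ZMod p)ˣ)
    (h0 : Module.End.eigenspace (σ.baseChange Ω) (ev z₀ j) ≠ ⊥) :
    Du (bcr ρ Ω) (bcc χ Ω) (Module.End.eigenspace (σ.baseChange Ω) (ev z₀ j))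
      (Module.End.eigenspace (σ.baseChange Ω) (ev z₀ (-j))) := by
  refine ⟨⊤, inferInstance, bcb Ω ω, ?_, fun s _ u _ v _ => bcb_inv ρ χ ω hweil s u v⟩
  obtain ⟨u, hu, hu0⟩ := Submodule.exists_mem_ne_zero_of_ne_bot h0
  by_contra hcon
  push Not at hcon
  apply hu0
  refine bcb_nondeg_left ω hndr hndl u fun v => ?_
  have hv : v ∈ ⨆ i : (ZMod p)ˣ, Module.End.eigenspace (σ.baseChange Ω) (ev z₀ i) := by
    rw [iSup_eig (bc_cyc Ω hσ) hz₀]
    trivial
  have hle : (⨆ i : (ZMod p)ˣ, Module.End.eigenspace (σ.baseChange Ω) (ev z₀ i)) ≤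
      LinearMap.ker (bcb Ω ω u) := by
    rw [iSup_le_iff]
    intro i w hw
    rw [LinearMap.mem_ker]
    by_cases hij : ev z₀ j * ev z₀ i = 1
    · have h1 := ev_dual hz₀ hij
      subst h1
      exact hcon u hu w hw
    · exact orth Ω ω hisom hij hu hw
  exact hle hv

end

section

variable {p N M : ℕ} [hp : Fact p.Prime] {k V Γ : Type} [Field k] [CharZero k] [AddCommGroup V]
  [Module k V] [FiniteDimensional k V] [Group Γ] {ρ : Representation k Γ V}
  {χ : Γ →* k} {ω : V →ₗ[k] V →ₗ[k] k} {σ : Module.End k V}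

theorem cov_right (h : CyclicCoverModule p N M ρ χ ω σ) : ∀ u, (∀ v, ω v u = 0) → u = 0 := by
  intro u hu
  refine h.nondeg u fun v => ?_
  have h1 := h.symm u v
  rw [hu] at h1
  exact (mul_eq_zero.1 h1.symm).resolve_left (pow_ne_zero _ (neg_ne_zero.2 one_ne_zero))

theorem cov_sim (h : CyclicCoverModule p N M ρ χ ω σ) (s : Γ) (u v : V) :
    ω (ρ s u) (ρ s v) = (χ ^ N) s * ω u v := by
  rw [h.similitude]
  rfl

theorem cov_finrank (h : CyclicCoverModule p N M ρ χ ω σ)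
    {z₀ : AlgebraicClosure k} (hz₀ : IsPrimitiveRoot z₀ p) (j : (ZMod p)ˣ) :
    finrank (AlgebraicClosure k) (Module.End.eigenspace
      (σ.baseChange (AlgebraicClosure k)) (ev z₀ j)) = coverRank N M :=
  h.cyclic.dim _ (ev_prim hz₀ j)

theorem cov_ne (h : CyclicCoverModule p N M ρ χ ω σ) (hr : 3 ≤ coverRank N M)
    {z₀ : AlgebraicClosure k} (hz₀ : IsPrimitiveRoot z₀ p) (j : (ZMod p)ˣ) :
    Module.End.eigenspace (σ.baseChange (AlgebraicClosure k)) (ev z₀ j) ≠ ⊥ := by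
  intro h0
  have h1 := cov_finrank h hz₀ j
  rw [h0, finrank_bot] at h1
  omega

/-- The determinants of the eigenspaces are independent. -/
theorem cov_det_free (h : CyclicCoverModule p N M ρ χ ω σ) (hr : 3 ≤ coverRank N M)
    (hslope : (coverRank N M : ℚ) - (-1) ^ N * (N + 1) ≠ 0)
    {z₀ : AlgebraicClosure k} (hz₀ : IsPrimitiveRoot z₀ p) :
    DetFree (bcr ρ (AlgebraicClosure k)) (bcc (χ ^ N) (AlgebraicClosure k))
      (fun j : (ZMod p)ˣ => Module.End.eigenspace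
        (σ.baseChange (AlgebraicClosure k)) (ev z₀ j)) := by
  classical
  intro Q _ hQ i hnd d Δ hst hΔ hd hall
  obtain ⟨q, a, hq, γ, D, w, ha, hχ, hw, hD, hval⟩ := h.hodge
  obtain ⟨n, hn0, -, hn⟩ := Subgroup.exists_pow_mem_of_index_ne_zero hΔ.index_ne_zero γ
  have h1 := hall _ hn
  have h2 : ∀ x, LinearMap.det ((bcr ρ (AlgebraicClosure k) (γ ^ n)).restrict
      (hst x _ hn)) = (aeval (ev z₀ (i x)) D) ^ n := by
    intro x
    rw [det_pow γ (eig_stable _ h.cyclic.comm (ev z₀ (i x)) γ) n (hst x _ hn)]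
    congr 1
    exact hD _ (ev_prim hz₀ (i x)) (eig_stable _ h.cyclic.comm (ev z₀ (i x)) γ)
  have h3' : (χ ^ N) (γ ^ n) = (q : k) ^ (a * n * N) := by
    rw [MonoidHom.pow_apply, map_pow, hχ, ← pow_mul, ← pow_mul, mul_assoc]
  rw [Finset.prod_congr rfl fun x _ => h2 x, bcc_apply, h3', map_pow, map_natCast, ← pow_mul,
    mul_assoc (a * n)] at h1
  have h3 := sum_hodge hz₀ hw ha hval i hn0 h1
  have h4 : 2 * d = Fintype.card Q * coverRank N M := by
    rw [hd, Finset.sum_congr rfl fun x _ => cov_finrank h hz₀ (i x), Finset.sum_const,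
      Finset.card_univ, smul_eq_mul]
  let c : (ZMod p)ˣ → ℤ := fun j => ((Finset.univ.filter fun x => i x = j).card : ℤ)
  have h5 : ∀ s : (ZMod p)ˣ, ∑ j, c j * (2 * (((j * s : (ZMod p)ˣ) : ZMod p).val : ℤ) - p) = 0 := by
    intro s
    have h6 : ∑ x, (2 * (((i x * s : (ZMod p)ˣ) : ZMod p).val : ℤ) - p) = 0 := by
      have h7 : ∑ x, (2 * coverHodge p N M ((i x * s : (ZMod p)ˣ) : ZMod p) -
          N * coverRank N M) = 0 := by
        rw [Finset.sum_sub_distrib, ← Finset.mul_sum, h3 s, Finset.sum_const, Finset.card_univ,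
          nsmul_eq_mul]
        have h8 : (2 * d : ℚ) = Fintype.card Q * coverRank N M := by exact_mod_cast h4
        push_cast
        linear_combination (N : ℚ) * h8
      have h8 : ∀ x, 2 * coverHodge p N M ((i x * s : (ZMod p)ˣ) : ZMod p) -
          N * coverRank N M = (coverRank N M - (-1) ^ N * (N + 1)) / p *
            ((2 * (((i x * s : (ZMod p)ˣ) : ZMod p).val : ℤ) - p : ℤ) : ℚ) := by
        intro x
        rw [two_hodge]
        push_cast
        rfl
      rw [Finset.sum_congr rfl (fun x _ => h8 x), ← Finset.mul_sum, ← Int.cast_sum] at h7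
      have h9 : (coverRank N M - (-1) ^ N * (N + 1) : ℚ) / p ≠ 0 :=
        div_ne_zero hslope (Nat.cast_ne_zero.2 hp.out.ne_zero)
      exact_mod_cast (mul_eq_zero.1 h7).resolve_left h9
    rw [← h6, ← Finset.sum_fiberwise_of_maps_to (g := i) (t := Finset.univ)
      (fun x _ => Finset.mem_univ _)]
    refine Finset.sum_congr rfl fun j _ => ?_
    rw [Finset.sum_congr rfl (g := fun _ => (2 * (((j * s : (ZMod p)ˣ) : ZMod p).val : ℤ) - p))
      (fun x hx => by rw [(Finset.mem_filter.1 hx).2]), Finset.sum_const, nsmul_eq_mul]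
  have h6 := comb_saw h5
  obtain ⟨x₀⟩ := hQ
  have h7 := h6 (i x₀)
  have h8 : 0 < (Finset.univ.filter fun x => i x = i x₀).card :=
    Finset.card_pos.2 ⟨x₀, Finset.mem_filter.2 ⟨Finset.mem_univ _, rfl⟩⟩
  have h9 : 0 < (Finset.univ.filter fun x => i x = -i x₀).card := by
    have h10 : ((Finset.univ.filter fun x => i x = i x₀).card : ℤ) =
      ((Finset.univ.filter fun x => i x = -i x₀).card : ℤ) := h7
    omega
  obtain ⟨x₁, hx₁⟩ := Finset.card_pos.1 h9
  have h10 : i x₁ = -i x₀ := (Finset.mem_filter.1 hx₁).2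
  refine hnd x₀ x₁ ?_
  rw [h10]
  exact eig_Du' _ ω (cov_right h) h.nondeg (cov_sim h) h.isom h.cyclic.cyc hz₀ (i x₀)
    (cov_ne h hr hz₀ (i x₀))

/-- The eigenspaces are strongly irreducible. -/
theorem cov_SI (hcomm : ∀ s, ρ s * σ = σ * ρ s)
    (hirr : StronglyIrreducibleEigenspaces p ρ σ) {z₀ : AlgebraicClosure k}
    (hz₀ : IsPrimitiveRoot z₀ p) (j : (ZMod p)ˣ)
    (h0 : Module.End.eigenspace (σ.baseChange (AlgebraicClosure k)) (ev z₀ j) ≠ ⊥) :
    SI (bcr ρ (AlgebraicClosure k))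
      (Module.End.eigenspace (σ.baseChange (AlgebraicClosure k)) (ev z₀ j)) := by
  refine ⟨h0, ⟨⊤, inferInstance, fun s _ => eig_stable _ hcomm _ s⟩, ?_⟩
  rintro W hW ⟨Δ, hΔ, hst⟩
  exact hirr _ (ev_prim hz₀ j) Δ hΔ W hW hst

/-- The reflections. -/
theorem cov_refl (hp2 : p ≠ 2) (hcyc : ∑ i ∈ Finset.range p, σ ^ i = 0)
    (hcomm : ∀ s, ρ s * σ = σ * ρ s) {g : Γ} (hg : IsReflection p σ (ρ g))
    {z₀ : AlgebraicClosure k} (hz₀ : IsPrimitiveRoot z₀ p) :
    HasReflections (bcr ρ (AlgebraicClosure k)) (fun j : (ZMod p)ˣ =>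
      Module.End.eigenspace (σ.baseChange (AlgebraicClosure k)) (ev z₀ j)) := by
  have htop := iSup_eig (bc_cyc (AlgebraicClosure k) hcyc) hz₀
  obtain ⟨ε, hε1, hε2, hε3⟩ := reflects (AlgebraicClosure k) hcyc hg (hcomm g) hz₀ hp2
  intro i
  refine ⟨g, ⟨2 * p, Nat.mul_pos two_pos hp.out.pos, ?_⟩, ε, fun j => ?_, (hε2 i).2.1,
    (hε2 i).2.2, fun j hj h1 => hj (hε3 j i h1)⟩
  · apply LinearMap.ext
    intro x
    have hle : (⨆ j : (ZMod p)ˣ, Module.End.eigenspace
        (σ.baseChange (AlgebraicClosure k)) (ev z₀ j)) ≤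
        LinearMap.ker ((bcr ρ (AlgebraicClosure k) g) ^ (2 * p) - 1) := by
      rw [iSup_le_iff]
      intro j u hu
      obtain ⟨d, φ, hd, hφ, hdu⟩ := hε1 j
      have h1 := refl_pow (R := bcr ρ (AlgebraicClosure k)) (c := 1) hd hφ
        (fun u hu => by rw [one_smul]; exact hdu u hu) (2 * p) u hu
      rw [(hε2 j).1, sub_self, zero_mul, zero_smul, add_zero, one_pow, one_smul, map_pow] at h1
      rw [LinearMap.mem_ker, LinearMap.sub_apply, h1]
      exact sub_self u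
    rw [htop] at hle
    have h1 := hle (show x ∈ ⊤ from trivial)
    rw [LinearMap.mem_ker, LinearMap.sub_apply] at h1
    exact sub_eq_zero.1 h1
  · obtain ⟨d, φ, hd, hφ, hdu⟩ := hε1 j
    exact ⟨1, d, φ, hd, hφ, fun u hu => by rw [one_smul]; exact hdu u hu⟩

/-- Tate forms over the closure are generated by bilinear Tate forms. -/
theorem cov_even (h : CyclicCoverModule p N M ρ χ ω σ) (hp2 : p ≠ 2) (hr : 3 ≤ coverRank N M)
    (hslope : (coverRank N M : ℚ) - (-1) ^ N * (N + 1) ≠ 0)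
    (hirr : StronglyIrreducibleEigenspaces p ρ σ) (hF : NonscalarOnEigenspaces p ρ σ)
    {g : Γ} (hg : IsReflection p σ (ρ g)) {z₀ : AlgebraicClosure k}
    (hz₀ : IsPrimitiveRoot z₀ p) {m : ℕ}
    (φ : MultilinearMap (AlgebraicClosure k) (fun _ : Fin m × Fin 2 => AlgebraicClosure k ⊗[k] V)
      (AlgebraicClosure k))
    (hφ : IsTate (bcr ρ (AlgebraicClosure k)) (bcc (χ ^ N) (AlgebraicClosure k)) m φ) :
    φ ∈ Submodule.span (AlgebraicClosure k)
      (PT (bcr ρ (AlgebraicClosure k)) (bcc (χ ^ N) (AlgebraicClosure k)) m) := by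
  classical
  have htop := iSup_eig (bc_cyc (AlgebraicClosure k) h.cyclic.cyc) hz₀
  have hSI := fun j => cov_SI h.cyclic.comm hirr hz₀ j (cov_ne h hr hz₀ j)
  have hst : ∀ (j : (ZMod p)ˣ) (s : Γ), ∀ u ∈ Module.End.eigenspace
      (σ.baseChange (AlgebraicClosure k)) (ev z₀ j), bcr ρ (AlgebraicClosure k) s u ∈
        Module.End.eigenspace (σ.baseChange (AlgebraicClosure k)) (ev z₀ j) :=
    fun j s => eig_stable _ h.cyclic.comm _ s
  have hE : StronglyIrreducibleSum (bcr ρ (AlgebraicClosure k)) (fun j : (ZMod p)ˣ =>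
      Module.End.eigenspace (σ.baseChange (AlgebraicClosure k)) (ev z₀ j)) :=
    ⟨hSI, fun j => by rw [cov_finrank h hz₀ j]; exact hr, htop⟩
  have hF' : ∀ i : (ZMod p)ˣ, ∃ F : Γ, ∀ n : ℕ, 0 < n → ∀ a : AlgebraicClosure k,
      ∃ u ∈ Module.End.eigenspace (σ.baseChange (AlgebraicClosure k)) (ev z₀ i),
        bcr ρ (AlgebraicClosure k) (F ^ n) u ≠ a • u := fun i => hF _ (ev_prim hz₀ i)
  exact refl_pt' (bcb (AlgebraicClosure k) ω)
    (fun u hu => bcb_nondeg_left ω (cov_right h) h.nondeg u hu)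
    (bcb_inv ρ (χ ^ N) ω (cov_sim h)) (hasProj_of_sum hst (fun i => (hSI i).2.2) htop)
    hE hst (cov_refl hp2 h.cyclic.cyc h.cyclic.comm hg hz₀) hF'
    (cov_det_free h hr hslope hz₀) φ hφ

end

end

end Pool.Agent.Y128.CC
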