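import Pool.Agent.Y128.RT.Inf

/-!
# An element of the Lie algebra of an operator which does not act as a scalar
-/

set_option linter.unusedSectionVars false

namespace Pool.Agent.Y128.CC

open Module Polynomial Pool.Agent.H204R3.SP Pool.Agent.H204R3.GP Pool.Agent.W529.Ta
  Pool.Agent.Y128.GT Pool.Agent.Y128.RT

noncomputable section

variable {K : Type} [Field K] [CharZero K] {X : Type} [AddCommGroup X] [Module K X]

/-- Two eigenvalues whose quotient is no root of unity. -/
theorem ns_one [IsAlgClosed K] [FiniteDimensional K X] (T : Module.End K X)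
    (hT : ∀ v, T v = 0 → v = 0) {a b0 : K} {wa wb : X} (hwa : wa ≠ 0) (hTa : T wa = a • wa)
    (hwb : wb ≠ 0) (hTb : T wb = b0 • wb) (hinf : ∀ N : ℕ, 0 < N → a ^ N ≠ b0 ^ N) :
    ∃ x : Module.End K X, (∃ s t : K, s ≠ t ∧ x wa = s • wa ∧ x wb = t • wb) ∧
      ∀ (κ : Type) [Fintype κ] [DecidableEq κ],
        dF (κ := κ) x ∈ Algebra.adjoin K {TT (κ := κ) T} := by
  classical
  obtain ⟨m, b, μ, s, n, n0, d, hb, hμ0, hTs, hc, hnd, hd, hs, hn0, hn0d, hTn, hsn⟩ := jordan T hT
  have hne : ∀ {μ0 : K} {w0 : X}, w0 ≠ 0 → T w0 = μ0 • w0 → μ0 ≠ 0 := by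
    rintro μ0 w0 hw0 hTw rfl
    rw [zero_smul] at hTw
    exact hw0 (hT _ hTw)
  have ha0 : a ≠ 0 := hne hwa hTa
  have hb00 : b0 ≠ 0 := hne hwb hTb
  obtain ⟨lam, hl1, hl2, hl3⟩ := exists_hom (a * b0⁻¹) (mul_ne_zero ha0 (inv_ne_zero hb00)) (by
    intro N hN h
    rw [mul_pow, inv_pow, mul_inv_eq_one₀ (pow_ne_zero _ hb00)] at h
    exact hinf N hN h)
  -- the vectors are eigenvectors of `s`
  have hs0 : ∀ {μ0 : K} {w0 : X}, w0 ≠ 0 → T w0 = μ0 • w0 → s w0 = μ0 • w0 := by
    intro μ0 w0 hw0 hTw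
    have hn00 : n0 w0 = 0 := by
      have h1 : ∀ A ∈ Algebra.adjoin K {T}, ∃ c : K, A w0 = c • w0 := by
        intro A hA
        have h2 := mem_of_adjoin hA (W := Submodule.span K {w0}) (fun w hw => by
          obtain ⟨c, rfl⟩ := Submodule.mem_span_singleton.1 hw
          rw [map_smul, hTw]
          exact Submodule.smul_mem _ _ (Submodule.smul_mem _ _ (Submodule.mem_span_singleton_self _)))
          w0 (Submodule.mem_span_singleton_self _)
        obtain ⟨c, hc⟩ := Submodule.mem_span_singleton.1 h2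
        exact ⟨c, hc.symm⟩
      obtain ⟨c, hc⟩ := h1 n0 hn0
      have h2 : ∀ k : ℕ, (n0 ^ k) w0 = c ^ k • w0 := by
        intro k
        induction k with
        | zero => rw [pow_zero, pow_zero, one_smul]; rfl
        | succ k ih => rw [pow_succ', Module.End.mul_apply, ih, map_smul, hc, smul_smul, pow_succ]
      have h3 := h2 d
      rw [hn0d, LinearMap.zero_apply] at h3
      have h4 : c = 0 := by
        rcases smul_eq_zero.1 h3.symm with h | h
        · exact pow_eq_zero_iff (by omega) |>.1 h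
        · exact absurd h hw0
      rw [hc, h4, zero_smul]
    have h1 := hTn w0
    rw [hn00, zero_add, hTw] at h1
    exact h1.symm
  refine ⟨fn b μ lam, ⟨lam a, lam b0, ?_, fn_eig hb lam (hs0 hwa hTa), fn_eig hb lam (hs0 hwb hTb)⟩,
    ?_⟩
  · intro h
    apply hl3
    have h1 := hl1 (a * b0⁻¹) b0 (mul_ne_zero ha0 (inv_ne_zero hb00)) hb00
    rw [mul_assoc, inv_mul_cancel₀ hb00, mul_one, h] at h1
    have h2 : lam (a * b0⁻¹) = lam (a * b0⁻¹) + lam b0 - lam b0 := by ring
    rw [h2, ← h1, sub_self]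
  · intro κ _ _
    have h3 : ∀ (φ : MultilinearMap K (fun _ : κ => X) K) (I : κ → Fin m),
        dF (fn b μ lam) φ (fun l => b (I l)) = lam (∏ k, μ (I k)) * φ (fun l => b (I l)) := by
      intro φ I
      rw [dF_apply]
      have h1 : ∀ k, φ (Function.update (fun l => b (I l)) k (fn b μ lam (b (I k)))) =
          lam (μ (I k)) * φ (fun l => b (I l)) := by
        intro k
        rw [fn_b, MultilinearMap.map_update_smul, Function.update_eq_self, smul_eq_mul]
      rw [Finset.sum_congr rfl (fun k _ => h1 k), ← Finset.sum_mul]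
      have h2 : ∀ S : Finset κ, ∑ k ∈ S, lam (μ (I k)) = lam (∏ k ∈ S, μ (I k)) := by
        intro S
        induction S using Finset.induction_on with
        | empty => rw [Finset.sum_empty, Finset.prod_empty, hl2]
        | insert a S ha ih =>
          rw [Finset.sum_insert ha, Finset.prod_insert ha, hl1 _ _ (hμ0 _)
            (Finset.prod_ne_zero_iff.2 fun k _ => hμ0 _), ih]
      rw [h2]
    obtain ⟨P, hP⟩ := diag_poly (κ := κ) hb lam
    have h4 : dF (κ := κ) (fn b μ lam) = aeval (TT (κ := κ) s) P := by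
      refine LinearMap.ext fun φ => Basis.ext_multilinear (fun _ => b) fun I => ?_
      rw [h3, hP]
    have h5 : TT (κ := κ) s ∈ Algebra.adjoin K {TT (κ := κ) T} := TT_s_mem hb hTs hc hnd
    have h6 : aeval (TT (κ := κ) s) P ∈ Algebra.adjoin K {TT (κ := κ) s} :=
      aeval_mem_adjoin (A := Module.End K (MultilinearMap K (fun _ : κ => X) K)) _ P
    rw [h4]
    exact mem_adjoin_of_mem (A := Module.End K (MultilinearMap K (fun _ : κ => X) K)) h5 h6

/-- **The case of a unipotent restriction.** -/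
theorem ns_two [IsAlgClosed K] [FiniteDimensional K X] (T : Module.End K X)
    (hT : ∀ v, T v = 0 → v = 0) (W : Submodule K X) (hW : ∀ w ∈ W, T w ∈ W) {w0 : X}
    (hw0 : w0 ∈ W) (hTw : T w0 ≠ w0) (M : ℕ) (hM : ∀ w ∈ W, ((T - 1) ^ M) w = 0) :
    ∃ x : Module.End K X, (¬∃ a : K, ∀ w ∈ W, x w = a • w) ∧ ∀ (κ : Type) [Fintype κ]
      [DecidableEq κ], dF (κ := κ) x ∈ Algebra.adjoin K {TT (κ := κ) T} := by
  classical
  obtain ⟨m, b, μ, s, n, n0, d, hb, hμ0, hTs, hc, hnd, hd, hs, hn0, hn0d, hTn, hsn⟩ := jordan T hT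
  -- `s` is the identity on `W`
  have hs1 : ∀ w ∈ W, s w = w := by
    intro w hw
    have hcom : Commute (T - 1) n0 :=
      (Algebra.commute_of_mem_adjoin_self hn0).sub_left (Commute.one_left _)
    have hsT : s - 1 = (T - 1) - n0 := by
      have h1 : T = n0 + s := LinearMap.ext hTn
      rw [h1]
      abel
    have h1 : ((s - 1) ^ (M + d)) w = 0 := by
      rw [hsT, sub_eq_add_neg, (hcom.neg_right).add_pow, LinearMap.sum_apply]
      refine Finset.sum_eq_zero fun j _ => ?_
      have h2 : ((T - 1) ^ j * (-n0) ^ (M + d - j) * ((M + d).choose j : Module.End K X)) w =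
          ((M + d).choose j : K) • ((T - 1) ^ j * (-n0) ^ (M + d - j)) w := by
        rw [← nsmul_eq_mul', LinearMap.smul_apply, Nat.cast_smul_eq_nsmul]
      rw [h2]
      by_cases hj : d ≤ M + d - j
      · rw [neg_pow n0, pow_eq_zero_of_le hj hn0d, mul_zero, mul_zero, LinearMap.zero_apply,
          smul_zero]
      · have h3 : M ≤ j := by omega
        obtain ⟨a, rfl⟩ := Nat.exists_eq_add_of_le h3
        rw [Module.End.mul_apply, add_comm M a, pow_add, Module.End.mul_apply, hM, map_zero,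
          smul_zero]
        refine mem_of_adjoin (T := T) ?_ hW w hw
        exact Subalgebra.pow_mem _ (Subalgebra.neg_mem _ hn0) _
    have h2 : ∀ k : ℕ, ∀ i, b.repr (((s - 1) ^ k) w) i = (μ i - 1) ^ k * b.repr w i := by
      intro k
      induction k with
      | zero => intro i; rw [pow_zero, pow_zero, one_mul]; rfl
      | succ k ih =>
        intro i
        rw [pow_succ', Module.End.mul_apply, LinearMap.sub_apply, Module.End.one_apply, map_sub,
          Finsupp.sub_apply, eq_fn hb, fn_repr, ← eq_fn hb, ih, pow_succ, id]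
        ring
    apply b.repr.injective
    ext i
    rw [eq_fn hb, fn_repr, id]
    have h3 := h2 (M + d) i
    rw [h1, map_zero, Finsupp.zero_apply] at h3
    rcases mul_eq_zero.1 h3.symm with h4 | h4
    · have h5 : μ i - 1 = 0 := pow_eq_zero_iff (by omega) |>.1 h4
      rw [sub_eq_zero.1 h5, one_mul]
    · rw [h4, mul_zero]
  have hsinj : ∀ v, s v = 0 → v = 0 := by
    intro v hv
    apply b.repr.injective
    ext i
    have h1 : b.repr (s v) i = 0 := by rw [hv, map_zero, Finsupp.zero_apply]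
    rw [eq_fn hb, fn_repr, id] at h1
    rw [map_zero, Finsupp.zero_apply]
    exact (mul_eq_zero.1 h1).resolve_left (hμ0 i)
  have hnW : ∀ w ∈ W, n w = T w - w := by
    intro w hw
    have h1 : s (n w - (T w - w)) = 0 := by
      rw [map_sub, hsn, hs1 (T w - w) (W.sub_mem (hW w hw) hw), hTn, hs1 w hw]
      abel
    exact sub_eq_zero.1 (hsinj _ h1)
  have hnWm : ∀ w ∈ W, n w ∈ W := by
    intro w hw
    rw [hnW w hw]
    exact W.sub_mem (hW w hw) hw
  -- the last nonzero power
  have hlast : ∃ w ∈ W, n w ≠ 0 ∧ n (n w) = 0 := by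
    by_contra hcon
    push Not at hcon
    have h1 : ∀ k : ℕ, (n ^ k) w0 ∈ W ∧ n ((n ^ k) w0) ≠ 0 := by
      intro k
      induction k with
      | zero =>
        refine ⟨hw0, ?_⟩
        rw [pow_zero, Module.End.one_apply, hnW w0 hw0]
        exact sub_ne_zero.2 hTw
      | succ k ih =>
        have h2 : (n ^ (k + 1)) w0 = n ((n ^ k) w0) := by rw [pow_succ', Module.End.mul_apply]
        rw [h2]
        exact ⟨hnWm _ ih.1, hcon _ ih.1 ih.2⟩
    exact (h1 d).2 (by rw [hnd, LinearMap.zero_apply, map_zero])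
  obtain ⟨w, hw, hnw, hnnw⟩ := hlast
  refine ⟨lg d n, ?_, ?_⟩
  · rintro ⟨a, ha⟩
    have h1 := ha w hw
    have h2 := ha (n w) (hnWm w hw)
    rw [lg_last hd n hnnw] at h1
    rw [lg_last hd n (v := n w) (by rw [hnnw, map_zero]), hnnw] at h2
    rcases smul_eq_zero.1 h2.symm with h3 | h3
    · rw [h3, zero_smul] at h1
      exact hnw h1
    · exact hnw h3
  intro κ _ _
  obtain ⟨D, hD⟩ := TT_unip (κ := κ) hnd
  have h1 : TT (κ := κ) (1 + n) ∈ Algebra.adjoin K {TT (κ := κ) T} :=
    TT_u_mem hb hμ0 hTs hc hnd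
  have h2 := sub_one_mem' (A := Module.End K (MultilinearMap K (fun _ : κ => X) K)) h1
  rw [dF_lg hnd hD]
  exact sum_pow_mem (A := Module.End K (MultilinearMap K (fun _ : κ => X) K)) h2 D _

/-- **An operator no power of which is a scalar on a subspace.** -/
theorem exists_ns [IsAlgClosed K] [FiniteDimensional K X] (T : Module.End K X)
    (hT : ∀ v, T v = 0 → v = 0) (W : Submodule K X) (hW : ∀ w ∈ W, T w ∈ W)
    (hinf : ∀ N : ℕ, 0 < N → ∀ c : K, ∃ w ∈ W, (T ^ N) w ≠ c • w) :
    ∃ x : Module.End K X, (¬∃ a : K, ∀ w ∈ W, x w = a • w) ∧ ∀ (κ : Type) [Fintype κ]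
      [DecidableEq κ], dF (κ := κ) x ∈ Algebra.adjoin K {TT (κ := κ) T} := by
  classical
  by_cases hev : ∃ (a b0 : K) (wa wb : X), wa ∈ W ∧ wb ∈ W ∧ wa ≠ 0 ∧ wb ≠ 0 ∧ T wa = a • wa ∧
      T wb = b0 • wb ∧ ∀ N : ℕ, 0 < N → a ^ N ≠ b0 ^ N
  · obtain ⟨a, b0, wa, wb, hwa, hwb, hwa0, hwb0, hTa, hTb, hN⟩ := hev
    obtain ⟨x, ⟨s, t, hst, hxa, hxb⟩, hx'⟩ := ns_one T hT hwa0 hTa hwb0 hTb hN
    refine ⟨x, ?_, hx'⟩
    rintro ⟨e, he⟩
    apply hst
    have h1 : (s - e) • wa = 0 := by rw [sub_smul, ← hxa, he wa hwa, sub_self]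
    have h2 : (t - e) • wb = 0 := by rw [sub_smul, ← hxb, he wb hwb, sub_self]
    rw [sub_eq_zero.1 ((smul_eq_zero.1 h1).resolve_right hwa0),
      sub_eq_zero.1 ((smul_eq_zero.1 h2).resolve_right hwb0)]
  push Not at hev
  let T' : Module.End K W := T.restrict hW
  have hnt : Nontrivial W := by
    obtain ⟨w, hw, h1⟩ := hinf 1 one_pos 1
    refine ⟨⟨⟨w, hw⟩, 0, fun h => h1 ?_⟩⟩
    have h2 : w = 0 := congrArg Subtype.val h
    rw [h2, map_zero, smul_zero]
  obtain ⟨a, ha⟩ := Module.End.exists_eigenvalue T'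
  obtain ⟨⟨wa, hwa⟩, hve⟩ := ha.exists_hasEigenvector
  have hwa0 : wa ≠ 0 := fun h => hve.2 (Subtype.ext h)
  have hTa : T wa = a • wa := congrArg Subtype.val hve.apply_eq_smul
  have ha0 : a ≠ 0 := by
    rintro rfl
    rw [zero_smul] at hTa
    exact hwa0 (hT _ hTa)
  have hroot : ∀ β ∈ (minpoly K T').roots, ∃ N : ℕ, 0 < N ∧ β ^ N = a ^ N := by
    intro β hβ
    have h1 : Module.End.HasEigenvalue T' β := by
      rw [Module.End.hasEigenvalue_iff_isRoot]
      exact (Polynomial.mem_roots'.1 hβ).2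
    obtain ⟨v, hv⟩ := h1.exists_hasEigenvector
    have h2 : T (v : X) = β • (v : X) := congrArg Subtype.val hv.apply_eq_smul
    obtain ⟨N, hN, h3⟩ := hev a β wa v hwa v.2 hwa0 (fun h => hv.2 (Subtype.ext h)) hTa h2
    exact ⟨N, hN, h3.symm⟩
  have hroot' : ∃ o : K → ℕ, ∀ β ∈ (minpoly K T').roots, 0 < o β ∧ β ^ (o β) = a ^ (o β) := by
    refine ⟨fun β => if h : β ∈ (minpoly K T').roots then (hroot β h).choose else 1, ?_⟩
    intro β hβ
    simp only [dif_pos hβ]
    exact (hroot β hβ).choose_spec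
  obtain ⟨o, ho⟩ := hroot'
  let N : ℕ := ∏ β ∈ (minpoly K T').roots.toFinset, o β
  have hN0 : 0 < N := Finset.prod_pos fun β hβ => (ho β (Multiset.mem_toFinset.1 hβ)).1
  have hN : ∀ β ∈ (minpoly K T').roots, β ^ N = a ^ N := by
    intro β hβ
    obtain ⟨c, hc⟩ := Finset.dvd_prod_of_mem o (Multiset.mem_toFinset.2 hβ)
    have h1 : N = o β * c := hc
    rw [h1, pow_mul, (ho β hβ).2, ← pow_mul]
  have hc0 : a ^ N ≠ 0 := pow_ne_zero _ ha0
  obtain ⟨w0, hw0, hTw⟩ := hinf N hN0 (a ^ N)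
  have hTi : IsIntegral K T' := Algebra.IsIntegral.isIntegral _
  have h1 : aeval (T' ^ N) ((minpoly K T').roots.map fun β => (Polynomial.X - C (β ^ N) : K[X])).prod
      = 0 := by
    refine LinearMap.ext fun w => ?_
    refine pow_kill T' _ N w ?_
    have h2 : ((minpoly K T').roots.map fun β => (Polynomial.X - C β : K[X])).prod = minpoly K T' :=
      ((IsAlgClosed.splits (minpoly K T')).eq_prod_roots_of_monic (minpoly.monic hTi)).symm
    rw [h2, minpoly.aeval, LinearMap.zero_apply]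
  have h2 : ((minpoly K T').roots.map fun β => (Polynomial.X - C (β ^ N) : K[X])).prod =
      (Polynomial.X - C (a ^ N)) ^ (Multiset.card (minpoly K T').roots) := by
    rw [Multiset.map_congr rfl (fun β hβ => by rw [hN β hβ]), Multiset.map_const',
      Multiset.prod_replicate]
  rw [h2, map_pow, map_sub, aeval_X, aeval_C] at h1
  set M := Multiset.card (minpoly K T').roots with hM
  let T1 : Module.End K X := (a ^ N)⁻¹ • T ^ N
  have h4 : ∀ (j : ℕ) (w : W), (((T' ^ j) w : W) : X) = (T ^ j) (w : X) := by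
    intro j
    induction j with
    | zero => intro w; rfl
    | succ j ih => intro w; rw [pow_succ, pow_succ, Module.End.mul_apply, ih]; rfl
  have h3 : ∀ (k : ℕ) (w : W), (((T' ^ N - algebraMap K _ (a ^ N)) ^ k) w : X) =
      (a ^ N) ^ k • ((T1 - 1) ^ k) (w : X) := by
    intro k
    induction k with
    | zero => intro w; rw [pow_zero, pow_zero, pow_zero, one_smul]; rfl
    | succ k ih =>
      intro w
      have h5 : (((T' ^ N - algebraMap K _ (a ^ N)) w : W) : X) = (a ^ N) • ((T1 - 1) (w : X)) := by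
        have h6 : (T1 - 1) (w : X) = (a ^ N)⁻¹ • (T ^ N) (w : X) - (w : X) := rfl
        rw [h6, smul_sub, smul_smul, mul_inv_cancel₀ hc0, one_smul, LinearMap.sub_apply,
          Submodule.coe_sub, h4, Module.algebraMap_end_apply, Submodule.coe_smul]
      rw [pow_succ (T' ^ N - algebraMap K _ (a ^ N)), Module.End.mul_apply, ih, h5, map_smul,
        smul_smul, pow_succ (T1 - 1), Module.End.mul_apply, ← pow_succ]
  have hTN : ∀ v, (T ^ N) v = 0 → v = 0 := by
    have h4 : ∀ k : ℕ, ∀ v, (T ^ k) v = 0 → v = 0 := by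
      intro k
      induction k with
      | zero => intro v hv; exact hv
      | succ k ih =>
        intro v hv
        rw [pow_succ, Module.End.mul_apply] at hv
        exact hT _ (ih _ hv)
    exact h4 N
  have hT1 : ∀ v, T1 v = 0 → v = 0 := by
    intro v hv
    exact hTN v ((smul_eq_zero.1 hv).resolve_left (inv_ne_zero hc0))
  have hWN : ∀ w ∈ W, T1 w ∈ W := fun w hw => W.smul_mem _
    (mem_of_adjoin (T := T) (Subalgebra.pow_mem _ (Algebra.self_mem_adjoin_singleton K T) N) hW w hw)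
  obtain ⟨x, hx, hx'⟩ := ns_two T1 hT1 W hWN hw0 (by
    intro h
    apply hTw
    have h5 : (a ^ N) • T1 w0 = (T ^ N) w0 := by
      change (a ^ N) • ((a ^ N)⁻¹ • (T ^ N) w0) = _
      rw [smul_smul, mul_inv_cancel₀ hc0, one_smul]
    rw [← h5, h]) M (fun w hw => by
      have h5 := h3 M ⟨w, hw⟩
      rw [h1] at h5
      have h6 : (0 : X) = (a ^ N) ^ M • ((T1 - 1) ^ M) w := h5
      exact (smul_eq_zero.1 h6.symm).resolve_left (pow_ne_zero _ hc0))
  refine ⟨x, hx, fun κ _ _ => ?_⟩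
  have h5 : TT (κ := κ) T1 ∈ Algebra.adjoin K {TT (κ := κ) T} := by
    have h6 : TT (κ := κ) T1 = ((a ^ N)⁻¹ ^ Fintype.card κ) • TT (κ := κ) T ^ N := by
      rw [← TT_pow]
      ext φ v
      change φ (fun l => (a ^ N)⁻¹ • (T ^ N) (v l)) = ((a ^ N)⁻¹ ^ Fintype.card κ) •
        φ (fun l => (T ^ N) (v l))
      rw [MultilinearMap.map_smul_univ, Finset.prod_const, Finset.card_univ]
    rw [h6]
    exact (Algebra.adjoin K {TT (κ := κ) T}).smul_mem
      ((Algebra.adjoin K {TT (κ := κ) T}).pow_mem (Algebra.subset_adjoin (Set.mem_singleton _)) N) _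
  exact mem_adjoin_of_mem (A := Module.End K (MultilinearMap K (fun _ : κ => X) K)) h5 (hx' κ)

end

end Pool.Agent.Y128.CC
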