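import Pool.Agent.Y128.CC.Defs
import Pool.Agent.Y128.SJ.Val

/-!
# Hodge numbers and determinants
-/

set_option linter.unusedSectionVars false

namespace Pool.Agent.Y128.CC

open Module TensorProduct Polynomial Pool.Agent.Y128.SJ Pool.Agent.H916R2

/-- There are no relations between the values of the sawtooth function. -/
theorem comb_saw {p : ℕ} [hp : Fact p.Prime] {c : (ZMod p)ˣ → ℤ}
    (hc : ∀ s : (ZMod p)ˣ, ∑ j, c j * (2 * (((j * s : (ZMod p)ˣ) : ZMod p).val : ℤ) - p) = 0)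
    (i : (ZMod p)ˣ) : c i = c (-i) := by
  refine comb (n := p) hp.out.two_le (fun s => ?_) i
  rw [← hc s]
  refine Finset.sum_congr rfl fun j _ => ?_
  congr 1
  have h1 := two_mult (n := p) hp.out.two_le (j * s)
  rw [ZMod.natCast_self, zero_mul, saw_zero, sub_zero, saw, if_neg (j * s).ne_zero] at h1
  exact mul_left_cancel₀ (Nat.cast_ne_zero.2 hp.out.ne_zero) h1

/-- The sum of the Hodge numbers of eigenspaces whose determinants multiply to a power of the
cyclotomic character. -/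
theorem sum_hodge {p q a : ℕ} [hp : Fact p.Prime] [hq : Fact q.Prime] {K : Type} [Field K]
    [CharZero K] {z : K} (hz : IsPrimitiveRoot z p) {w : ℚ_[q]} (hw : IsPrimitiveRoot w p)
    {D : ℚ[X]} (ha : 0 < a) {η : ZMod p → ℚ}
    (hval : ∀ s : (ZMod p)ˣ, ((aeval (w ^ (s : ZMod p).val) D).valuation : ℚ) = a * η s)
    {Q : Type} [Fintype Q] (i : Q → (ZMod p)ˣ) {N d : ℕ} (hN : 0 < N)
    (h : ∏ x, (aeval (ev z (i x)) D) ^ N = (q : K) ^ (a * N * d)) (s : (ZMod p)ˣ) :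
    ∑ x, η ((i x * s : (ZMod p)ˣ) : ZMod p) = d := by
  have hs : ((s : ZMod p).val).Coprime p := by
    rw [Nat.coprime_comm, Nat.Prime.coprime_iff_not_dvd hp.out]
    intro h1
    have h2 := Nat.le_of_dvd (by
      rw [Nat.pos_iff_ne_zero]
      intro h3
      exact s.ne_zero ((ZMod.val_eq_zero _).1 h3)) h1
    exact absurd (ZMod.val_lt (s : ZMod p)) (not_lt.2 h2)
  have hws : IsPrimitiveRoot (w ^ (s : ZMod p).val) p := hw.pow_of_coprime _ hs
  have h1 := transfer hz hws D (fun x => ((i x : (ZMod p)ˣ) : ZMod p).val) N ((q : ℚ) ^ (a * N * d))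
    (by rw [map_pow, map_natCast]; exact h)
  have h2 : ∀ x, (w ^ (s : ZMod p).val) ^ ((i x : (ZMod p)ˣ) : ZMod p).val =
      w ^ ((i x * s : (ZMod p)ˣ) : ZMod p).val := by
    intro x
    have h3 := ev_mul hw s (i x)
    rw [mul_comm s] at h3
    exact h3
  simp only [h2, map_pow, map_natCast] at h1
  have hq0 : (q : ℚ_[q]) ^ (a * N * d) ≠ 0 := pow_ne_zero _ (Nat.cast_ne_zero.2 hq.out.ne_zero)
  have hne : ∀ x, aeval (w ^ ((i x * s : (ZMod p)ˣ) : ZMod p).val) D ≠ 0 := by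
    intro x hx
    apply hq0
    rw [← h1]
    exact Finset.prod_eq_zero (Finset.mem_univ x) (by rw [hx, zero_pow hN.ne'])
  have h3 := congrArg Padic.valuation h1
  rw [val_prod _ _ fun x _ => pow_ne_zero _ (hne x)] at h3
  rw [Padic.valuation_pow, Padic.valuation_p, mul_one] at h3
  have h4 : ((N : ℚ) * a) * ∑ x, η ((i x * s : (ZMod p)ˣ) : ZMod p) = ((N : ℚ) * a) * d := by
    have h6 : ((∑ x, ((aeval (w ^ ((i x * s : (ZMod p)ˣ) : ZMod p).val) D) ^ N).valuation : ℤ) : ℚ)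
        = ((a * N * d : ℕ) : ℤ) := by rw [h3]
    push_cast at h6
    rw [Finset.mul_sum]
    have h5 : ((N : ℚ) * a) * d = a * N * d := by ring
    rw [h5, ← h6]
    refine Finset.sum_congr rfl fun x _ => ?_
    have h7 := hval (i x * s)
    rw [Units.val_mul] at h7
    rw [Padic.valuation_pow]
    push_cast
    rw [h7]
    ring
  have h5 : ((N : ℚ) * a) ≠ 0 := by positivity
  exact mul_left_cancel₀ h5 h4

theorem rank_ge {N M : ℕ} (hN : 2 ≤ N) (hM : 3 ≤ M) (h : ¬(N = 2 ∧ M = 3)) :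
    N + 2 ≤ coverRank N M := by
  rw [coverRank, Nat.le_div_iff_mul_le (by omega)]
  obtain ⟨x, rfl⟩ : ∃ x, M = x + 1 := ⟨M - 1, by omega⟩
  rw [Nat.add_sub_cancel]
  have hx : 2 ≤ x := by omega
  rcases Nat.lt_or_ge 2 N with h2 | h2
  · obtain ⟨n, rfl⟩ : ∃ n, N = n + 3 := ⟨N - 3, by omega⟩
    clear h h2 hN hM
    induction n with
    | zero =>
      obtain ⟨y, rfl⟩ : ∃ y, x = y + 2 := ⟨x - 2, by omega⟩
      have h5 : (y + 2) ^ (0 + 3 + 1) + 1 = (0 + 3 + 2) * (y + 2 + 1) +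
          (2 + 27 * y + 24 * y ^ 2 + 8 * y ^ 3 + y ^ 4) := by ring
      rw [h5]
      exact Nat.le_add_right _ _
    | succ n ih =>
      have h3 : x + 1 ≤ x ^ (n + 3 + 1) := by
        calc x + 1 ≤ x ^ 2 := by nlinarith
          _ ≤ x ^ (n + 3 + 1) := Nat.pow_le_pow_right (by omega) (by omega)
      have h4 : x ^ (n + 1 + 3 + 1) = x * x ^ (n + 3 + 1) := by ring
      rw [h4]
      nlinarith
  · have h3 : N = 2 := le_antisymm h2 hN
    subst h3
    have h4 : 3 ≤ x := by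
      by_contra h5
      exact h ⟨rfl, by omega⟩
    obtain ⟨y, rfl⟩ : ∃ y, x = y + 3 := ⟨x - 3, by omega⟩
    have h5 : (y + 3) ^ (2 + 1) + 1 = (2 + 2) * (y + 3 + 1) +
        (12 + 23 * y + 9 * y ^ 2 + y ^ 3) := by ring
    rw [h5]
    exact Nat.le_add_right _ _

theorem slope_ne {N M : ℕ} (hN : 2 ≤ N) (hM : 3 ≤ M) (h : ¬(N = 2 ∧ M = 3)) :
    (coverRank N M : ℚ) - (-1) ^ N * (N + 1) ≠ 0 := by
  have h1 := rank_ge hN hM h
  have h2 : (N : ℚ) + 2 ≤ coverRank N M := by exact_mod_cast h1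
  rcases neg_one_pow_eq_or ℚ N with h3 | h3
  · rw [h3]
    intro h4
    linarith
  · rw [h3]
    intro h4
    have h5 : (0 : ℚ) ≤ N := Nat.cast_nonneg N
    linarith

theorem two_hodge {p : ℕ} [hp : Fact p.Prime] (N M : ℕ) (j : ZMod p) :
    2 * coverHodge p N M j - N * coverRank N M =
      (coverRank N M - (-1) ^ N * (N + 1)) / p * (2 * (j.val : ℚ) - p) := by
  have h0 : (p : ℚ) ≠ 0 := Nat.cast_ne_zero.2 hp.out.ne_zero
  rw [coverHodge]
  field_simp
  ring

end Pool.Agent.Y128.CC
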